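import Mathlib

/-!
# Silting objects: the orthogonality lemma and cellular approximations

Abstract part (pretriangulated categories) of the proof that the `τ_n`-perpendicular class of a
`τ_n`-tilting module is preenveloping.
-/

set_option linter.unusedSectionVars false
set_option linter.style.longLine false

open CategoryTheory Category Limits Pretriangulated ZeroObject

namespace K9h74.TP

universe v u

section abs

variable {C : Type u} [Category.{v} C] [HasZeroObject C] [HasShift C ℤ] [Preadditive C]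
  [∀ (n : ℤ), (shiftFunctor C n).Additive] [Pretriangulated C]

/-- All morphisms `X ⟶ Y` vanish. -/
def HZ (X Y : C) : Prop := ∀ f : X ⟶ Y, f = 0

omit [HasZeroObject C] [HasShift C ℤ] [∀ (n : ℤ), (shiftFunctor C n).Additive]
  [Pretriangulated C] in
theorem HZ.of_iso {X Y X' Y' : C} (e : X ≅ X') (e' : Y ≅ Y') (h : HZ X Y) : HZ X' Y' := by
  intro f
  have := h (e.hom ≫ f ≫ e'.inv)
  have h2 : f = e.inv ≫ (e.hom ≫ f ≫ e'.inv) ≫ e'.hom := by simp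
  rw [h2, this]; simp

omit [HasZeroObject C] [Pretriangulated C] in
theorem HZ.shift {X Y : C} (h : HZ X Y) (a : ℤ) : HZ (X⟦a⟧) (Y⟦a⟧) := by
  intro f
  obtain ⟨g, rfl⟩ := (shiftFunctor C a).map_surjective f
  rw [h g]; simp

omit [HasZeroObject C] [Pretriangulated C] in
theorem HZ.shift' {X Y : C} {a b : ℤ} (h : HZ (X⟦a⟧) (Y⟦b⟧)) {c d : ℤ} (hc : b - a = d - c) :
    HZ (X⟦c⟧) (Y⟦d⟧) := by
  have h1 := h.shift (c - a)
  refine h1.of_iso ((shiftFunctorAdd' C a (c - a) c (by lia)).app X).symm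
    ((shiftFunctorAdd' C b (c - a) d (by lia)).app Y).symm

omit [HasZeroObject C] [Pretriangulated C] in
theorem HZ.shiftL {X Y : C} {a b : ℤ} (h : HZ (X⟦a⟧) (Y⟦b⟧)) (hab : b = a) : HZ X Y := by
  have h1 := h.shift' (c := 0) (d := 0) (by lia)
  exact h1.of_iso ((shiftFunctorZero C ℤ).app X) ((shiftFunctorZero C ℤ).app Y)

omit [HasZeroObject C] [Pretriangulated C] in
theorem HZ.shift0 {X Y : C} (h : HZ X Y) : HZ (X⟦(0 : ℤ)⟧) (Y⟦(0 : ℤ)⟧) := h.shift 0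

omit [HasZeroObject C] [Pretriangulated C] in
/-- `Hom(X⟦a⟧, Y) = 0` iff `Hom(X, Y⟦-a⟧) = 0`. -/
theorem HZ.left_iff {X Y : C} (a : ℤ) : HZ (X⟦a⟧) Y ↔ HZ X (Y⟦(-a)⟧) := by
  constructor
  · intro h
    have h1 := h.shift (-a)
    exact h1.of_iso ((shiftFunctorCompIsoId C a (-a) (by lia)).app X) (Iso.refl _)
  · intro h
    have h1 := h.shift a
    exact h1.of_iso (Iso.refl _) ((shiftFunctorCompIsoId C (-a) a (by lia)).app Y)

/-- `Hom(P⟦i⟧, X) = 0` for all `i ≤ m`. -/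
def RZ (P X : C) (m : ℤ) : Prop := ∀ i : ℤ, i ≤ m → HZ (P⟦i⟧) X

/-- `B` is right orthogonal to all `Y` with `Hom(Y, P⟦i⟧) = 0` for all `i > m`. -/
def BB (P : C) (m : ℤ) (B : C) : Prop :=
  ∀ Y : C, (∀ i : ℤ, m < i → HZ Y (P⟦i⟧)) → HZ Y B

/-- Every morphism from `Y` to an `X` with `RZ P X m` factors through an object of `BB P m`. -/
def FF (P : C) : ObjectProperty C := fun Y =>
  ∀ (m : ℤ) (X : C), RZ P X m → ∀ f : Y ⟶ X, ∃ (B : C) (a : Y ⟶ B) (b : B ⟶ X),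
    BB P m B ∧ a ≫ b = f

/-- `P` has no nonzero morphisms to its positive shifts. -/
def Presilt (P : C) : Prop := ∀ i : ℤ, 0 < i → HZ P (P⟦i⟧)

omit [HasZeroObject C] [Pretriangulated C] in
theorem Presilt.hz {P : C} (h : Presilt P) {a b : ℤ} (hab : a < b) : HZ (P⟦a⟧) (P⟦b⟧) := by
  have h1 := (h (b - a) (by lia)).of_iso ((shiftFunctorZero C ℤ).app P).symm (Iso.refl _)
  exact h1.shift' (by lia)

omit [HasZeroObject C] [Pretriangulated C] in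
theorem BB.of_iso {P : C} {m : ℤ} {B B' : C} (h : BB P m B) (e : B ≅ B') : BB P m B' :=
  fun Y hY => (h Y hY).of_iso (Iso.refl _) e

omit [HasZeroObject C] [Pretriangulated C] in
theorem BB.shift {P : C} {m : ℤ} {B : C} (h : BB P m B) (a m' : ℤ) (ha : m' = m + a) :
    BB P m' (B⟦a⟧) := by
  intro Y hY
  have h1 : HZ (Y⟦(-a)⟧) B := by
    apply h
    intro i hi
    have h2 := (hY (i + a) (by lia)).of_iso ((shiftFunctorZero C ℤ).app Y).symm (Iso.refl _)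
    exact h2.shift' (by lia)
  have h3 := h1.of_iso (Iso.refl _) ((shiftFunctorZero C ℤ).app B).symm
  exact (h3.shift' (c := 0) (d := a) (by lia)).of_iso
    ((shiftFunctorZero C ℤ).app Y) (Iso.refl _)

theorem BB.ext {P : C} {m : ℤ} (T : Triangle C) (hT : T ∈ distTriang C) (h1 : BB P m T.obj₁)
    (h3 : BB P m T.obj₃) : BB P m T.obj₂ := by
  intro Y hY f
  obtain ⟨g, rfl⟩ := Triangle.coyoneda_exact₂ T hT f (h3 Y hY _)
  rw [h1 Y hY g, zero_comp]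

theorem BB.zero {P : C} {m : ℤ} {B : C} (h : IsZero B) : BB P m B := by
  intro Y _ f
  exact h.eq_of_tgt _ _

theorem BB.biprod {P : C} {m : ℤ} {A B : C} (hA : BB P m A) (hB : BB P m B) :
    BB P m (A ⊞ B) := by
  intro Y hY f
  ext
  · simp [hA Y hY (f ≫ biprod.fst)]
  · simp [hB Y hY (f ≫ biprod.snd)]

omit [HasZeroObject C] [Pretriangulated C] in
theorem BB.retract {P : C} {m : ℤ} {A B : C} (r : Retract A B) (hB : BB P m B) : BB P m A := by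
  intro Y hY f
  have := hB Y hY (f ≫ r.i)
  have h2 : f = (f ≫ r.i) ≫ r.r := by simp
  rw [h2, this, zero_comp]

omit [HasZeroObject C] [Pretriangulated C] in
theorem BB.self {P : C} {m i : ℤ} (hi : m < i) : BB P m (P⟦i⟧) := fun _ hY => hY i hi

omit [HasZeroObject C] [Pretriangulated C] in
/-- `Hom(P⟦i⟧, B⟦1⟧) = 0` for `B ∈ BB P m`, `i ≤ m`. -/
theorem BB.hz_one {P : C} (hP : Presilt P) {m : ℤ} {B : C} (h : BB P m B) {i : ℤ} (hi : i ≤ m) :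
    HZ (P⟦i⟧) (B⟦(1 : ℤ)⟧) := by
  have h1 : HZ (P⟦(i - 1)⟧) B := h _ (fun j hj => hP.hz (by lia))
  have h2 := h1.of_iso (Iso.refl _) ((shiftFunctorZero C ℤ).app B).symm
  exact h2.shift' (by lia)

theorem FF.ext₂ {P : C} (hP : Presilt P) (T : Triangle C) (hT : T ∈ distTriang C)
    (h1 : FF P T.obj₁) (h3 : FF P T.obj₃) : FF P T.obj₂ := by
  intro m X hX f
  obtain ⟨B1, a1, b1, hB1, hab⟩ := h1 m X hX (T.mor₁ ≫ f)
  obtain ⟨X', p, q, hT'⟩ := distinguished_cocone_triangle b1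
  -- X' is right orthogonal too
  have hX' : RZ P X' m := by
    intro i hi g
    obtain ⟨g', rfl⟩ := Triangle.coyoneda_exact₃ _ hT' g (hB1.hz_one hP hi _)
    rw [hX i hi g']; exact zero_comp
  have hz : T.mor₁ ≫ (f ≫ p) = 0 := by
    have : b1 ≫ p = 0 := comp_distTriang_mor_zero₁₂ _ hT'
    rw [← assoc, ← hab, assoc, this, comp_zero]
  obtain ⟨h, hh⟩ := Triangle.yoneda_exact₂ T hT (f ≫ p) hz
  obtain ⟨B2, a2, b2, hB2, hab2⟩ := h3 m X' hX' h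
  obtain ⟨B, s, t, hB⟩ := distinguished_cocone_triangle₂ (b2 ≫ q)
  have hBB : BB P m B := BB.ext _ hB hB1 hB2
  -- B ⟶ X
  obtain ⟨w, hw1, hw2⟩ : ∃ w : B ⟶ X, s ≫ w = 𝟙 B1 ≫ b1 ∧ t ≫ b2 = w ≫ p :=
    complete_distinguished_triangle_morphism₂ _ _ hB hT' (𝟙 B1) b2
    (by
      show (b2 ≫ q) ≫ (shiftFunctor C (1 : ℤ)).map (𝟙 B1) = b2 ≫ q
      rw [CategoryTheory.Functor.map_id, comp_id])
  -- lift T.obj₂ ⟶ B2 to B
  have hy0 : (T.mor₂ ≫ a2) ≫ (b2 ≫ q) = 0 := by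
    have hpq : p ≫ q = 0 := comp_distTriang_mor_zero₂₃ _ hT'
    calc (T.mor₂ ≫ a2) ≫ (b2 ≫ q) = T.mor₂ ≫ (a2 ≫ b2) ≫ q := by simp
      _ = (T.mor₂ ≫ h) ≫ q := by rw [hab2, assoc]
      _ = (f ≫ p) ≫ q := by rw [← hh]
      _ = 0 := by rw [assoc, hpq, comp_zero]
  obtain ⟨y, hy⟩ : ∃ y : T.obj₂ ⟶ B, T.mor₂ ≫ a2 = y ≫ t :=
    Triangle.coyoneda_exact₃ _ hB (T.mor₂ ≫ a2) hy0
  have hδ : (f - y ≫ w) ≫ p = 0 := by
    rw [Preadditive.sub_comp, assoc, ← hw2, ← assoc y t b2, ← hy, assoc, hab2, ← hh, sub_self]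
  obtain ⟨ε, hε⟩ : ∃ ε : T.obj₂ ⟶ B1, f - y ≫ w = ε ≫ b1 :=
    Triangle.coyoneda_exact₂ _ hT' (f - y ≫ w) hδ
  refine ⟨B ⊞ B1, biprod.lift y ε, biprod.desc w b1, hBB.biprod hB1, ?_⟩
  rw [biprod.lift_desc, ← hε]; abel

theorem FF.of_iso {P : C} {Y Y' : C} (h : FF P Y) (e : Y ≅ Y') : FF P Y' := by
  intro m X hX f
  obtain ⟨B, a, b, hB, hab⟩ := h m X hX (e.hom ≫ f)
  exact ⟨B, e.inv ≫ a, b, hB, by rw [assoc, hab, Iso.inv_hom_id_assoc]⟩

theorem FF.retract {P : C} {Y Y' : C} (r : Retract Y' Y) (h : FF P Y) : FF P Y' := by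
  intro m X hX f
  obtain ⟨B, a, b, hB, hab⟩ := h m X hX (r.r ≫ f)
  exact ⟨B, r.i ≫ a, b, hB, by rw [assoc, hab]; simp⟩

theorem FF.zero {P : C} {Y : C} (h : IsZero Y) : FF P Y := by
  intro m X hX f
  exact ⟨Y, 𝟙 _, f, BB.zero h, by simp⟩

theorem FF.shift {P : C} {Y : C} (h : FF P Y) (a : ℤ) : FF P (Y⟦a⟧) := by
  intro m X hX f
  -- transpose
  have hX' : RZ P (X⟦(-a)⟧) (m - a) := by
    intro i hi
    have h1 := (hX (i + a) (by lia)).of_iso (Iso.refl _) ((shiftFunctorZero C ℤ).app X).symm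
    exact h1.shift' (by lia)
  let e := (shiftFunctorCompIsoId C a (-a) (by lia)).app Y
  let e' := (shiftFunctorCompIsoId C (-a) a (by lia)).app X
  obtain ⟨f', hf'⟩ := (shiftFunctor C a).map_surjective (f ≫ e'.inv)
  obtain ⟨B, x, y, hB, hxy⟩ := h (m - a) (X⟦(-a)⟧) hX' f'
  refine ⟨B⟦a⟧, x⟦a⟧', y⟦a⟧' ≫ e'.hom, hB.shift a m (by lia), ?_⟩
  rw [← assoc, ← Functor.map_comp, hxy, hf', assoc, Iso.inv_hom_id, comp_id]

theorem FF.self {P : C} : FF P P := by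
  intro m X hX f
  rcases le_or_gt 0 m with hm | hm
  · have h0 : HZ P X := (hX 0 hm).of_iso ((shiftFunctorZero C ℤ).app P) (Iso.refl _)
    exact ⟨0, 0, 0, BB.zero (isZero_zero C), by rw [h0 f]; simp⟩
  · exact ⟨P, 𝟙 _, f, (BB.self hm).of_iso ((shiftFunctorZero C ℤ).app P), by simp⟩

instance FF.contains {P : C} : (FF P).ContainsZero where
  exists_zero := ⟨0, isZero_zero C, FF.zero (isZero_zero C)⟩

instance FF.isClosed {P : C} : (FF P).IsClosedUnderIsomorphisms where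
  of_iso e h := h.of_iso e

instance FF.stable {P : C} : (FF P).IsStableUnderShift ℤ where
  isStableUnderShiftBy a := ⟨fun _ h => FF.shift h a⟩

theorem FF.isTriangulated {P : C} (hP : Presilt P) : (FF P).IsTriangulated :=
  { toIsTriangulatedClosed₂ := .mk' (fun T hT h₁ h₃ => FF.ext₂ hP T hT h₁ h₃) }

theorem BB.factor_sum {P Y X : C} {m : ℤ} {k : ℕ} (f : Fin k → (Y ⟶ X))
    (h : ∀ i, ∃ (B : C) (a : Y ⟶ B) (b : B ⟶ X), BB P m B ∧ a ≫ b = f i) :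
    ∃ (B : C) (a : Y ⟶ B) (b : B ⟶ X), BB P m B ∧ a ≫ b = ∑ i, f i := by
  induction k with
  | zero => exact ⟨0, 0, 0, BB.zero (isZero_zero C), by simp⟩
  | succ k ih =>
    obtain ⟨B, a, b, hB, hab⟩ := ih (fun i => f i.succ) (fun i => h i.succ)
    obtain ⟨B', a', b', hB', hab'⟩ := h 0
    exact ⟨B' ⊞ B, biprod.lift a' a, biprod.desc b' b, hB'.biprod hB, by
      rw [biprod.lift_desc, hab, hab', Fin.sum_univ_succ]⟩

/-- `FF P` contains `add P`. -/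
theorem FF.of_add {P X : C} {k : ℕ} (p : Fin k → (X ⟶ P)) (q : Fin k → (P ⟶ X))
    (h : ∑ i, p i ≫ q i = 𝟙 X) : FF P X := by
  intro m Z hZ f
  have h1 : f = ∑ i, p i ≫ q i ≫ f := by
    conv_lhs => rw [← Category.id_comp f, ← h, Preadditive.sum_comp]
    simp
  rw [h1]
  refine BB.factor_sum _ fun i => ?_
  obtain ⟨B, a, b, hB, hab⟩ := FF.self (P := P) m Z hZ (q i ≫ f)
  exact ⟨B, p i ≫ a, b, hB, by rw [assoc, hab]⟩

/-- The orthogonality lemma. -/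
theorem FF.hz {P Y X : C} (hY : FF P Y) (hYP : ∀ i : ℤ, 0 < i → HZ Y (P⟦i⟧)) (hX : RZ P X 0) :
    HZ Y X := by
  intro f
  obtain ⟨B, a, b, hB, hab⟩ := hY 0 X hX f
  rw [← hab, hB Y hYP a, zero_comp]

/-- `Tower P j A X ι`: the morphism `ι : A ⟶ X` is obtained by successively coning off
morphisms from `P⟦-l⟧` with `1 ≤ l ≤ j`. -/
inductive Tower (P : C) (j : ℤ) (A : C) : ∀ X : C, (A ⟶ X) → Prop
  | refl : Tower P j A A (𝟙 A)
  | step {X Y : C} (ι : A ⟶ X) (l : ℤ) (hl : 1 ≤ l) (hlj : l ≤ j) (g : P⟦(-l)⟧ ⟶ X) (h : X ⟶ Y)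
      (k : Y ⟶ P⟦(-l)⟧⟦(1 : ℤ)⟧) (hT : Triangle.mk g h k ∈ distTriang C)
      (hX : Tower P j A X ι) : Tower P j A Y (ι ≫ h)

theorem Tower.factor {P A X : C} {j : ℤ} {ι : A ⟶ X} (hT : Tower P j A X ι) {N : C}
    (hN : ∀ l : ℤ, 1 ≤ l → l ≤ j → HZ (P⟦(-l)⟧) N) (f : A ⟶ N) : ∃ f' : X ⟶ N, ι ≫ f' = f := by
  induction hT with
  | refl => exact ⟨f, by simp⟩
  | @step X Y ι l hl hlj g h k hT hX ih =>
    obtain ⟨f', hf'⟩ := ih
    obtain ⟨f'', hf''⟩ : ∃ f'' : Y ⟶ N, f' = h ≫ f'' :=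
      Triangle.yoneda_exact₂ _ hT f' (hN l hl hlj _)
    exact ⟨f'', by rw [assoc, ← hf'', hf']⟩

/-- `m` morphisms generate `Hom(Q, X)` over `End Q`. -/
def GenBy (Q X : C) (m : ℕ) : Prop :=
  ∃ g : Fin m → (Q ⟶ X), ∀ f : Q ⟶ X, ∃ a : Fin m → (Q ⟶ Q), f = ∑ i, a i ≫ g i

theorem Tower.kill {P A : C} (hP : Presilt P) {j : ℤ} (l : ℤ) (hl : 1 ≤ l) (hlj : l ≤ j)
    (m : ℕ) : ∀ (X : C) (ι : A ⟶ X), Tower P j A X ι → GenBy (P⟦(-l)⟧) X m →
      (∀ k : ℤ, l < k → HZ (P⟦(-k)⟧) X) →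
      ∃ (Y : C) (ι' : A ⟶ Y), Tower P j A Y ι' ∧ ∀ k : ℤ, l ≤ k → HZ (P⟦(-k)⟧) Y := by
  induction m with
  | zero =>
    intro X ι hT hG hk
    refine ⟨X, ι, hT, fun k hlk => ?_⟩
    rcases hlk.lt_or_eq with h | rfl
    · exact hk k h
    · intro f
      obtain ⟨g, hg⟩ := hG
      obtain ⟨a, ha⟩ := hg f
      rw [ha]; simp
  | succ m ih =>
    intro X ι hT hG hk
    obtain ⟨g, hg⟩ := hG
    obtain ⟨Y, h, k, hTr⟩ := distinguished_cocone_triangle (g 0)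
    have hlift : ∀ k' : ℤ, l ≤ k' → ∀ f : P⟦(-k')⟧ ⟶ Y, ∃ f' : P⟦(-k')⟧ ⟶ X, f = f' ≫ h := by
      intro k' hk' f
      refine Triangle.coyoneda_exact₃ _ hTr f ?_
      have h1 : HZ (P⟦(-k')⟧) (P⟦(-l)⟧⟦(1 : ℤ)⟧) :=
        (hP.hz (a := -k') (b := -l + 1) (by lia)).of_iso (Iso.refl _)
          ((shiftFunctorAdd' C (-l) 1 (-l + 1) rfl).app P)
      exact h1 _
    refine ih Y (ι ≫ h) (Tower.step ι l hl hlj (g 0) h k hTr hT) ?_ ?_
    · refine ⟨fun i => g i.succ ≫ h, fun f => ?_⟩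
      obtain ⟨f', rfl⟩ := hlift l le_rfl f
      obtain ⟨a, ha⟩ := hg f'
      refine ⟨fun i => a i.succ, ?_⟩
      have hz : g 0 ≫ h = 0 := comp_distTriang_mor_zero₁₂ _ hTr
      rw [ha, Fin.sum_univ_succ, Preadditive.add_comp, assoc, hz, comp_zero, zero_add,
        Preadditive.sum_comp]
      simp
    · intro k' hk' f
      obtain ⟨f', rfl⟩ := hlift k' hk'.le f
      rw [hk k' hk' f', zero_comp]

/-- Existence of the approximation. -/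
theorem Tower.exists {P A : C} (hP : Presilt P) (j : ℕ)
    (hfin : ∀ (X : C) (ι : A ⟶ X), Tower P j A X ι → ∀ l : ℤ, ∃ m, GenBy (P⟦(-l)⟧) X m)
    (hA : ∀ k : ℤ, (j : ℤ) < k → HZ (P⟦(-k)⟧) A) :
    ∃ (X : C) (ι : A ⟶ X), Tower P j A X ι ∧ ∀ k : ℤ, 1 ≤ k → HZ (P⟦(-k)⟧) X := by
  have key : ∀ d : ℕ, d ≤ j → ∃ (X : C) (ι : A ⟶ X), Tower P j A X ι ∧
      ∀ k : ℤ, (j : ℤ) - d < k → HZ (P⟦(-k)⟧) X := by
    intro d
    induction d with
    | zero => intro _; exact ⟨A, 𝟙 A, Tower.refl, fun k hk => hA k (by simpa using hk)⟩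
    | succ d ih =>
      intro hd
      obtain ⟨X, ι, hT, hX⟩ := ih (by lia)
      obtain ⟨m, hm⟩ := hfin X ι hT ((j : ℤ) - d)
      obtain ⟨Y, ι', hT', hY⟩ := Tower.kill hP ((j : ℤ) - d) (by lia) (by lia) m X ι hT hm hX
      exact ⟨Y, ι', hT', fun k hk => hY k (by push_cast at hk; lia)⟩
  obtain ⟨X, ι, hT, hX⟩ := key j le_rfl
  exact ⟨X, ι, hT, fun k hk => hX k (by lia)⟩

end abs

end K9h74.TP
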