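import Mathlib
import Pool.Agent.K9h74.TP.Abs

set_option linter.unusedSectionVars false
set_option linter.style.longLine false
set_option linter.style.haveILetI false

open CategoryTheory Category Limits Pretriangulated ZeroObject

namespace K9h74.TP

universe v u w

section

variable {C : Type u} [Category.{v} C] [Preadditive C]

theorem GenBy.of_iso {Q X Q' X' : C} {m : ℕ} (e : Q ≅ Q') (e' : X ≅ X') (h : GenBy Q X m) :
    GenBy Q' X' m := by
  obtain ⟨g, hg⟩ := h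
  refine ⟨fun i => e.inv ≫ g i ≫ e'.hom, fun f => ?_⟩
  obtain ⟨a, ha⟩ := hg (e.hom ≫ f ≫ e'.inv)
  refine ⟨fun i => e.inv ≫ a i ≫ e.hom, ?_⟩
  have h2 : f = e.inv ≫ (e.hom ≫ f ≫ e'.inv) ≫ e'.hom := by simp
  rw [h2, ha]
  simp [Preadditive.sum_comp, Preadditive.comp_sum]

end

section

variable {C : Type u} [Category.{v} C] [Abelian C] [HasDerivedCategory.{w} C]

open DerivedCategory

theorem Q_map_surj (K L : CochainComplex C ℤ) [K.IsKProjective] (f : Q.obj K ⟶ Q.obj L) :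
    ∃ φ : K ⟶ L, Q.map φ = f := by
  obtain ⟨g, hg⟩ := (CochainComplex.IsKProjective.Qh_map_bijective K
    ((HomotopyCategory.quotient _ _).obj L)).surjective
    ((quotientCompQhIso C).hom.app K ≫ f ≫ (quotientCompQhIso C).inv.app L)
  obtain ⟨φ, rfl⟩ := (HomotopyCategory.quotient _ _).map_surjective g
  refine ⟨φ, ?_⟩
  have h1 := quotientCompQhIso_hom_naturality φ
  rw [hg] at h1
  simpa using h1.symm

theorem Q_map_zero (K L : CochainComplex C ℤ) [K.IsKProjective] (φ : K ⟶ L)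
    (h : Q.map φ = 0) : Nonempty (Homotopy φ 0) := by
  have h1 := quotientCompQhIso_hom_naturality φ
  rw [h, comp_zero] at h1
  have h2 : Qh.map ((HomotopyCategory.quotient C (.up ℤ)).map φ) = 0 := by
    rw [← cancel_mono ((quotientCompQhIso C).hom.app L), h1, zero_comp]
  have h3 : (HomotopyCategory.quotient C (.up ℤ)).map φ =
      (HomotopyCategory.quotient C (.up ℤ)).map 0 := by
    apply (CochainComplex.IsKProjective.Qh_map_bijective K
      ((HomotopyCategory.quotient _ _).obj L)).injective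
    rw [h2, Functor.map_zero, Functor.map_zero]
  exact ⟨HomotopyCategory.homotopyOfEq _ _ h3⟩

/-- `Hom_D(QK, Z) = 0` if `K` is K-projective, `K` lives in degrees `≥ a` and `Z` in degrees `< a`. -/
theorem hz_of_strictlyGE (K : CochainComplex C ℤ) [K.IsKProjective] (a m : ℤ) (ha : m < a)
    [K.IsStrictlyGE a] (Z : DerivedCategory C) [Z.IsLE m] : HZ (Q.obj K) Z := by
  obtain ⟨L, hL, ⟨e⟩⟩ := Z.exists_iso_Q_obj_of_isLE m
  refine HZ.of_iso (X := Q.obj K) (Y := Q.obj L) (Iso.refl _) e.symm ?_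
  intro f
  obtain ⟨φ, rfl⟩ := Q_map_surj K L f
  have : φ = 0 := by
    ext i
    rcases lt_or_ge i a with h | h
    · exact (K.isZero_of_isStrictlyGE a i h).eq_of_src _ _
    · exact (L.isZero_of_isStrictlyLE m i (by lia)).eq_of_tgt _ _
  rw [this, Functor.map_zero]

end

section lin

variable (R : Type u) {Λ : Type u} [CommRing R] [Ring Λ] [Algebra R Λ]

/-- The `R`-module structure on a `Λ`-module. -/
@[instance_reducible]
def modR (M : ModuleCat.{u} Λ) : Module R M := Module.restrictScalars R Λ M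

theorem modR_scalarTower (M : ModuleCat.{u} Λ) :
    letI := modR R M
    IsScalarTower R Λ M := IsScalarTower.restrictScalars R Λ M

/-- `ModuleCat Λ` is `R`-linear. -/
@[instance_reducible]
noncomputable def linR : Linear R (ModuleCat.{u} Λ) :=
  letI : ∀ M : ModuleCat.{u} Λ, Module R M := fun M => modR R M
  haveI : ∀ M : ModuleCat.{u} Λ, IsScalarTower R Λ M := fun M => modR_scalarTower R M
  { homModule := fun _ _ => inferInstance }

theorem linR_smul_apply (M N : ModuleCat.{u} Λ) (r : R) (f : M ⟶ N) (x : M) :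
    letI : Linear R (ModuleCat.{u} Λ) := linR R
    (r • f).hom x = algebraMap R Λ r • f.hom x := rfl

theorem hom_noeth [IsNoetherianRing R] [Module.Finite R Λ] (M N : ModuleCat.{u} Λ)
    [Module.Finite Λ M] [Module.Finite Λ N] :
    letI : Linear R (ModuleCat.{u} Λ) := linR R
    IsNoetherian R (M ⟶ N) := by
  letI : Linear R (ModuleCat.{u} Λ) := linR R
  letI : ∀ M : ModuleCat.{u} Λ, Module R M := fun M => modR R M
  haveI : ∀ M : ModuleCat.{u} Λ, IsScalarTower R Λ M := fun M => modR_scalarTower R M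
  haveI : Module.Finite R N := Module.Finite.trans Λ N
  obtain ⟨m, s, hs⟩ := Module.Finite.exists_fin (R := Λ) (M := M)
  let φ : (M ⟶ N) →ₗ[R] (Fin m → N) :=
    { toFun := fun f i => f.hom (s i)
      map_add' := fun f g => rfl
      map_smul' := fun r f => by
        ext i
        simp only [Pi.smul_apply, RingHom.id_apply]
        rfl }
  refine isNoetherian_of_injective φ ?_
  intro f g hfg
  ext x
  have : Set.EqOn f.hom g.hom (Set.range s) := by
    rintro _ ⟨i, rfl⟩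
    exact congrFun hfg i
  exact LinearMap.congr_fun (LinearMap.ext_on hs this) x

/-- chain maps from a bounded complex of f.g. modules to a complex of f.g. modules form a
finitely generated module. -/
theorem chain_noeth [IsNoetherianRing R] [Module.Finite R Λ] (K L : CochainComplex (ModuleCat.{u} Λ) ℤ)
    (a b : ℤ) [K.IsStrictlyGE a] [K.IsStrictlyLE b]
    (hK : ∀ i, Module.Finite Λ (K.X i)) (hL : ∀ i, Module.Finite Λ (L.X i)) :
    letI : Linear R (ModuleCat.{u} Λ) := linR R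
    IsNoetherian R (K ⟶ L) := by
  letI : Linear R (ModuleCat.{u} Λ) := linR R
  haveI : ∀ i : Finset.Icc a b, IsNoetherian R (K.X i ⟶ L.X i) := fun i => hom_noeth R _ _
  let φ : (K ⟶ L) →ₗ[R] (∀ i : Finset.Icc a b, (K.X i ⟶ L.X i)) :=
    { toFun := fun f i => f.f i
      map_add' := fun f g => rfl
      map_smul' := fun r f => rfl }
  refine isNoetherian_of_injective φ ?_
  intro f g hfg
  apply HomologicalComplex.hom_ext
  intro i
  by_cases hi : a ≤ i ∧ i ≤ b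
  · exact congrFun hfg ⟨i, by simpa using hi⟩
  · rcases lt_or_ge i a with h | h
    · exact (K.isZero_of_isStrictlyGE a i h).eq_of_src _ _
    · exact (K.isZero_of_isStrictlyLE b i (by by_contra hc; exact hi ⟨h, by lia⟩)).eq_of_src _ _

theorem genBy_chain [IsNoetherianRing R] [Module.Finite R Λ] (K L : CochainComplex (ModuleCat.{u} Λ) ℤ)
    (a b : ℤ) [K.IsStrictlyGE a] [K.IsStrictlyLE b]
    (hK : ∀ i, Module.Finite Λ (K.X i)) (hL : ∀ i, Module.Finite Λ (L.X i)) :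
    ∃ (m : ℕ) (g : Fin m → (K ⟶ L)), ∀ f : K ⟶ L, ∃ a : Fin m → (K ⟶ K), f = ∑ i, a i ≫ g i := by
  letI : Linear R (ModuleCat.{u} Λ) := linR R
  haveI := chain_noeth R K L a b hK hL
  haveI : Module.Finite R (K ⟶ L) := inferInstance
  obtain ⟨m, s, hs⟩ := Module.Finite.exists_fin (R := R) (M := K ⟶ L)
  refine ⟨m, s, fun f => ?_⟩
  have hf : f ∈ Submodule.span R (Set.range s) := by rw [hs]; trivial
  obtain ⟨c, hc⟩ := (Submodule.mem_span_range_iff_exists_fun R).mp hf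
  refine ⟨fun i => c i • 𝟙 K, ?_⟩
  rw [← hc]
  simp

end lin

section fg

variable {Λ : Type u} [Ring Λ] [HasDerivedCategory.{w} (ModuleCat.{u} Λ)]

open DerivedCategory

theorem finite_of_iso {M N : ModuleCat.{u} Λ} (e : M ≅ N) [Module.Finite Λ M] :
    Module.Finite Λ N := Module.Finite.equiv e.toLinearEquiv

theorem finite_of_isZero {M : ModuleCat.{u} Λ} (h : IsZero M) : Module.Finite Λ M := by
  haveI := ModuleCat.subsingleton_of_isZero h
  infer_instance

/-- objects of the derived category represented by complexes of finitely generated modules. -/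
def FG (X : DerivedCategory (ModuleCat.{u} Λ)) : Prop :=
  ∃ L : CochainComplex (ModuleCat.{u} Λ) ℤ, (∀ i, Module.Finite Λ (L.X i)) ∧
    Nonempty (X ≅ Q.obj L)

theorem FG.of_iso {X Y : DerivedCategory (ModuleCat.{u} Λ)} (h : FG X) (e : X ≅ Y) : FG Y := by
  obtain ⟨L, hL, ⟨e'⟩⟩ := h
  exact ⟨L, hL, ⟨e.symm ≪≫ e'⟩⟩

theorem FG.single (M : ModuleCat.{u} Λ) [Module.Finite Λ M] :
    FG ((singleFunctor (ModuleCat.{u} Λ) 0).obj M) := by
  refine ⟨(CochainComplex.singleFunctor (ModuleCat.{u} Λ) 0).obj M, fun i => ?_,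
    ⟨(singleFunctorIsoCompQ (ModuleCat.{u} Λ) 0).app M⟩⟩
  by_cases hi : i = 0
  · subst hi
    exact finite_of_iso (HomologicalComplex.singleObjXSelf (ComplexShape.up ℤ) 0 M).symm
  · exact finite_of_isZero (HomologicalComplex.isZero_single_obj_X _ _ _ _ hi)

theorem FG.cone {K : CochainComplex (ModuleCat.{u} Λ) ℤ} [K.IsKProjective]
    (hK : ∀ i, Module.Finite Λ (K.X i)) {T : Triangle (DerivedCategory (ModuleCat.{u} Λ))}
    (hT : T ∈ distTriang _) (e₁ : T.obj₁ ≅ Q.obj K) (h₂ : FG T.obj₂) : FG T.obj₃ := by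
  obtain ⟨L, hL, ⟨e₂⟩⟩ := h₂
  obtain ⟨φ, hφ⟩ := Q_map_surj K L (e₁.inv ≫ T.mor₁ ≫ e₂.hom)
  have hT' := mappingCone_triangle_distinguished φ
  let e := isoTriangleOfIso₁₂ T _ hT hT' e₁ e₂ (by
    show T.mor₁ ≫ e₂.hom = e₁.hom ≫ Q.map φ
    rw [hφ]; simp)
  refine ⟨CochainComplex.mappingCone φ, fun i => ?_, ⟨Triangle.π₃.mapIso e⟩⟩
  have e3 : (CochainComplex.mappingCone φ).X i ≅ K.X (i + 1) ⊞ L.X i :=
    HomologicalComplex.homotopyCofiber.XIsoBiprod φ i (i + 1) rfl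
  haveI := hK (i + 1)
  haveI := hL i
  haveI : Module.Finite Λ (ModuleCat.of Λ (K.X (i + 1) × L.X i)) :=
    inferInstanceAs (Module.Finite Λ (K.X (i + 1) × L.X i))
  exact finite_of_iso (e3 ≪≫ ModuleCat.biprodIsoProd _ _).symm

theorem FG.homology [IsNoetherianRing Λ] {X : DerivedCategory (ModuleCat.{u} Λ)} (h : FG X)
    (i : ℤ) : Module.Finite Λ ((homologyFunctor (ModuleCat.{u} Λ) i).obj X) := by
  obtain ⟨L, hL, ⟨e⟩⟩ := h
  haveI := hL i
  have h1 : Module.Finite Λ (L.cycles i) := by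
    haveI : IsNoetherian Λ (L.X i) := inferInstance
    haveI : IsNoetherian Λ (L.cycles i) :=
      isNoetherian_of_injective (L.iCycles i).hom ((ModuleCat.mono_iff_injective _).mp inferInstance)
    infer_instance
  have h2 : Module.Finite Λ (L.homology i) :=
    Module.Finite.of_surjective (L.homologyπ i).hom
      ((ModuleCat.epi_iff_surjective _).mp inferInstance)
  haveI : Module.Finite Λ
    ((HomologicalComplex.homologyFunctor (ModuleCat.{u} Λ) (ComplexShape.up ℤ) i).obj L) := h2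
  exact finite_of_iso ((homologyFunctor _ i).mapIso e ≪≫ (homologyFunctorFactors _ i).app L).symm

end fg

section main

variable {Λ : Type u} [Ring Λ] [HasDerivedCategory.{w} (ModuleCat.{u} Λ)]

open DerivedCategory

theorem genBy_of_FG (R : Type u) [CommRing R] [Algebra R Λ] [IsNoetherianRing R]
    [Module.Finite R Λ]
    (K : CochainComplex (ModuleCat.{u} Λ) ℤ) [K.IsKProjective] (a b : ℤ)
    [K.IsStrictlyGE a] [K.IsStrictlyLE b] (hK : ∀ i, Module.Finite Λ (K.X i))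
    {X : DerivedCategory (ModuleCat.{u} Λ)} (hX : FG X) : ∃ m, GenBy (Q.obj K) X m := by
  obtain ⟨L, hL, ⟨e⟩⟩ := hX
  obtain ⟨m, g, hg⟩ := genBy_chain R K L a b hK hL
  refine ⟨m, GenBy.of_iso (Iso.refl _) e.symm ⟨fun i => Q.map (g i), fun f => ?_⟩⟩
  obtain ⟨φ, rfl⟩ := Q_map_surj K L f
  obtain ⟨a, ha⟩ := hg φ
  refine ⟨fun i => Q.map (a i), ?_⟩
  rw [ha, Functor.map_sum]
  simp

/-- The hypotheses on the complex `P` used in the proof. -/
structure Good (n : ℕ) (P : CochainComplex (ModuleCat.{u} Λ) ℤ) : Prop where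
  ge : P.IsStrictlyGE (-(n : ℤ))
  le : P.IsStrictlyLE 0
  kproj : P.IsKProjective
  fin : ∀ i, Module.Finite Λ (P.X i)
  exact : ∀ i : ℤ, -(n : ℤ) < i → i < 0 → IsZero (P.homology i)
  presilt : Presilt (Q.obj P)
  ff : FF (Q.obj P) ((singleFunctor (ModuleCat.{u} Λ) 0).obj (ModuleCat.of Λ Λ))

variable {n : ℕ} {P : CochainComplex (ModuleCat.{u} Λ) ℤ}

/-- `Q(P)⟦a⟧ ≅ Q(P⟦a⟧)`. -/
noncomputable def shiftQ (P : CochainComplex (ModuleCat.{u} Λ) ℤ) (a : ℤ) :
    (Q.obj P)⟦a⟧ ≅ Q.obj (P⟦a⟧) := (Q.commShiftIso a).symm.app P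

theorem Good.tower_FG (hP : Good n P) {j : ℤ} {A X : DerivedCategory (ModuleCat.{u} Λ)}
    {ι : A ⟶ X} (hT : Tower (Q.obj P) j A X ι) (hA : FG A) : FG X := by
  induction hT with
  | refl => exact hA
  | @step X Y ι l hl hlj g h k hT hX ih =>
    haveI := hP.kproj
    exact FG.cone (K := P⟦(-l)⟧) (fun i => hP.fin _) hT (shiftQ P (-l)) ih

theorem Good.hz_of_isLE (hP : Good n P) (k m : ℤ) (hm : m < -(n : ℤ) + k)
    (Z : DerivedCategory (ModuleCat.{u} Λ)) [Z.IsLE m] : HZ ((Q.obj P)⟦(-k)⟧) Z := by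
  haveI := hP.kproj
  haveI := hP.ge
  haveI : (P⟦(-k)⟧).IsStrictlyGE (-(n : ℤ) + k) :=
    P.isStrictlyGE_shift (-(n : ℤ)) (-k) (-(n : ℤ) + k) (by lia)
  exact (hz_of_strictlyGE (P⟦(-k)⟧) (-(n : ℤ) + k) m hm Z).of_iso (shiftQ P (-k)).symm
    (Iso.refl _)

theorem Good.homology_shift (hP : Good n P) (l i : ℤ) (h1 : -(n : ℤ) < i - l) (h2 : i - l < 0) :
    IsZero ((homologyFunctor (ModuleCat.{u} Λ) i).obj ((Q.obj P)⟦(-l)⟧)) := by
  have h3 := hP.exact (i - l) h1 h2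
  refine h3.of_iso ?_
  exact (homologyFunctor _ i).mapIso (shiftQ P (-l)) ≪≫ (homologyFunctorFactors _ i).app _ ≪≫
    (CochainComplex.ShiftSequence.shiftIso (ModuleCat.{u} Λ) (-l) i (i - l) (by lia)).app P

theorem Good.tower_homology (hP : Good n P) {j : ℤ} {A X : DerivedCategory (ModuleCat.{u} Λ)}
    {ι : A ⟶ X} (hT : Tower (Q.obj P) j A X ι)
    (hA : ∀ i : ℤ, i < 0 → IsZero ((homologyFunctor (ModuleCat.{u} Λ) i).obj A))
    (i : ℤ) (hi : j - 1 - n < i) (hi' : i < 0) :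
    IsZero ((homologyFunctor (ModuleCat.{u} Λ) i).obj X) := by
  induction hT with
  | refl => exact hA i hi'
  | @step X Y ι l hl hlj g h k hT hX ih =>
    have h1 := HomologySequence.exact₃ _ hT i (i + 1) rfl
    have h2 := hP.homology_shift l (i + 1) (by lia) (by lia)
    exact h1.isZero_of_both_zeros (ih.eq_of_src _ _) (h2.eq_of_tgt _ _)

theorem single_kproj (s : ℤ) (A : ModuleCat.{u} Λ) [Projective A] :
    CochainComplex.IsKProjective
      ((HomologicalComplex.single (ModuleCat.{u} Λ) (ComplexShape.up ℤ) s).obj A) := by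
  haveI : ∀ i : ℤ, Projective
      (((HomologicalComplex.single (ModuleCat.{u} Λ) (ComplexShape.up ℤ) s).obj A).X i) := by
    intro i
    by_cases hi : i = s
    · subst hi
      exact Projective.of_iso (HomologicalComplex.singleObjXSelf (ComplexShape.up ℤ) i A).symm
        inferInstance
    · have : IsZero (((HomologicalComplex.single (ModuleCat.{u} Λ)
          (ComplexShape.up ℤ) s).obj A).X i) :=
        HomologicalComplex.isZero_single_obj_X _ _ _ _ hi
      exact this.projective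
  exact CochainComplex.isKProjective_of_projective _ s

theorem exists_of_homotopy {S L : CochainComplex (ModuleCat.{u} Λ) ℤ} (φ : S ⟶ L)
    (H : Homotopy φ 0) (s : ℤ) (hd : S.d s (s + 1) = 0) :
    ∃ g : S.X s ⟶ L.X (s - 1), φ.f s = g ≫ L.d (s - 1) s := by
  have h2 := H.comm s
  rw [dNext_eq H.hom (show (ComplexShape.up ℤ).Rel s (s + 1) by simp),
    prevD_eq H.hom (show (ComplexShape.up ℤ).Rel (s - 1) s by simp), hd, zero_comp, zero_add] at h2
  exact ⟨H.hom s (s - 1), by rw [h2]; simp⟩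

theorem comp_homologyπ_eq_zero {L : CochainComplex (ModuleCat.{u} Λ) ℤ} (s : ℤ)
    {A : ModuleCat.{u} Λ} (ψ : A ⟶ L.cycles s) (g : A ⟶ L.X (s - 1))
    (h : ψ ≫ L.iCycles s = g ≫ L.d (s - 1) s) : ψ ≫ L.homologyπ s = 0 := by
  have h4 : ψ = g ≫ L.toCycles (s - 1) s := by
    rw [← cancel_mono (L.iCycles s), h]
    simp
  rw [h4]
  simp

theorem isZero_homology_of_hz {X : DerivedCategory (ModuleCat.{u} Λ)} (s : ℤ)
    (h : HZ ((singleFunctor (ModuleCat.{u} Λ) s).obj (ModuleCat.of Λ Λ)) X) :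
    IsZero ((homologyFunctor (ModuleCat.{u} Λ) s).obj X) := by
  obtain ⟨L, ⟨e⟩⟩ : ∃ L, Nonempty (Q.obj L ≅ X) := ⟨_, ⟨Q.objObjPreimageIso X⟩⟩
  suffices h0 : IsZero (L.homology s) by
    exact h0.of_iso ((homologyFunctor _ s).mapIso e.symm ≪≫ (homologyFunctorFactors _ s).app L)
  haveI : Module.Projective Λ Λ := inferInstance
  haveI : Projective (ModuleCat.of Λ Λ) := (IsProjective.iff_projective Λ).mp inferInstance
  haveI := single_kproj s (ModuleCat.of Λ Λ)
  have key : ∀ ψ : ModuleCat.of Λ Λ ⟶ L.cycles s, ψ ≫ L.homologyπ s = 0 := by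
    intro ψ
    let φ : (HomologicalComplex.single (ModuleCat.{u} Λ) (ComplexShape.up ℤ) s).obj
        (ModuleCat.of Λ Λ) ⟶ L :=
      HomologicalComplex.mkHomFromSingle (ψ ≫ L.iCycles s) (fun k hk => by simp)
    have h1 : Q.map φ = 0 :=
      h.of_iso ((singleFunctorIsoCompQ (ModuleCat.{u} Λ) s).app _) e.symm (Q.map φ)
    obtain ⟨H⟩ := Q_map_zero _ L φ h1
    obtain ⟨g, hg⟩ := exists_of_homotopy φ H s
      ((HomologicalComplex.isZero_single_obj_X (ComplexShape.up ℤ) s _ (s + 1)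
        (by lia)).eq_of_tgt _ _)
    have h3 : φ.f s = (HomologicalComplex.singleObjXSelf (ComplexShape.up ℤ) s _).hom ≫
      (ψ ≫ L.iCycles s) := HomologicalComplex.mkHomFromSingle_f _ _
    refine comp_homologyπ_eq_zero s ψ
      ((HomologicalComplex.singleObjXSelf (ComplexShape.up ℤ) s (ModuleCat.of Λ Λ)).inv ≫ g) ?_
    rw [assoc, ← hg, h3, Iso.inv_hom_id_assoc]
  have hπ : L.homologyπ s = 0 := by
    ext z
    have h5 := key (ModuleCat.ofHom (LinearMap.toSpanSingleton Λ (L.cycles s) z))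
    have h6 := congrArg (fun f => f.hom (1 : Λ)) h5
    have h7 : (L.homologyπ s).hom ((LinearMap.toSpanSingleton Λ (L.cycles s) z) (1 : Λ)) = 0 := h6
    rw [LinearMap.toSpanSingleton_apply, one_smul] at h7
    exact h7
  exact IsZero.of_epi_eq_zero _ hπ

/-- The class of finitely generated modules `N` with `Hom(P⟦-k⟧, N) = 0` for all `k ≥ 1`. -/
def W (P : CochainComplex (ModuleCat.{u} Λ) ℤ) (N : ModuleCat.{u} Λ) : Prop :=
  Module.Finite Λ N ∧
    ∀ k : ℤ, 1 ≤ k → HZ ((Q.obj P)⟦(-k)⟧) ((singleFunctor (ModuleCat.{u} Λ) 0).obj N)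

theorem Good.hyp (hP : Good n P) (i : ℤ) (hi : 0 < i) :
    HZ ((singleFunctor (ModuleCat.{u} Λ) 0).obj (ModuleCat.of Λ Λ)) ((Q.obj P)⟦i⟧) := by
  haveI : Module.Projective Λ Λ := inferInstance
  haveI : Projective (ModuleCat.of Λ Λ) := (IsProjective.iff_projective Λ).mp inferInstance
  haveI := single_kproj 0 (ModuleCat.of Λ Λ)
  haveI := hP.le
  haveI : (Q.obj P).IsLE 0 := inferInstance
  haveI : ((Q.obj P)⟦i⟧).IsLE (-i) := TStructure.t.isLE_shift _ 0 i (-i)
  exact hz_of_strictlyGE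
    ((HomologicalComplex.single (ModuleCat.{u} Λ) (ComplexShape.up ℤ) 0).obj (ModuleCat.of Λ Λ))
    0 (-i) (by lia) ((Q.obj P)⟦i⟧)

theorem Good.homology_pos (hP : Good n P) {U : DerivedCategory (ModuleCat.{u} Λ)}
    (hU : ∀ k : ℤ, 1 ≤ k → HZ ((Q.obj P)⟦(-k)⟧) U) (s : ℤ) (hs : 0 < s) :
    IsZero ((homologyFunctor (ModuleCat.{u} Λ) s).obj U) := by
  apply isZero_homology_of_hz
  have h1 : HZ ((singleFunctor (ModuleCat.{u} Λ) 0).obj (ModuleCat.of Λ Λ)) (U⟦s⟧) := by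
    refine FF.hz hP.ff hP.hyp ?_
    intro i hi
    have h2 := (hU (s - i) (by lia)).of_iso (Iso.refl _) ((shiftFunctorZero _ ℤ).app U).symm
    exact h2.shift' (by lia)
  have h3 := h1.shift (-s)
  exact h3.of_iso (((singleFunctors (ModuleCat.{u} Λ)).shiftIso (-s) s 0 (by lia)).app _)
    ((shiftFunctorCompIsoId _ s (-s) (by lia)).app U)

theorem Good.step (R : Type u) [CommRing R] [Algebra R Λ] [IsNoetherianRing R]
    [Module.Finite R Λ] (hP : Good n P) (C : ModuleCat.{u} Λ) [Module.Finite Λ C] (j : ℕ)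
    (hj : j ≤ n)
    (hC : ∀ k : ℤ, (j : ℤ) < k →
      HZ ((Q.obj P)⟦(-k)⟧) ((singleFunctor (ModuleCat.{u} Λ) 0).obj C)) :
    ∃ (C₁ : ModuleCat.{u} Λ) (f : C ⟶ C₁), Module.Finite Λ C₁ ∧
      (∀ N, W P N → ∀ g : C ⟶ N, ∃ h : C₁ ⟶ N, f ≫ h = g) ∧
      (∀ k : ℤ, 1 ≤ k → (j : ℤ) - 1 ≤ k →
        HZ ((Q.obj P)⟦(-k)⟧) ((singleFunctor (ModuleCat.{u} Λ) 0).obj C₁)) := by
  haveI : IsNoetherianRing Λ := IsNoetherianRing.of_finite R Λ
  haveI := hP.kproj
  obtain ⟨U, ι, hT, hU⟩ := Tower.exists hP.presilt j (A := (singleFunctor _ 0).obj C) (by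
    intro X ι hX l
    haveI := hP.ge
    haveI := hP.le
    haveI : (P⟦(-l)⟧).IsStrictlyGE (-(n : ℤ) + l) :=
      P.isStrictlyGE_shift (-(n : ℤ)) (-l) (-(n : ℤ) + l) (by lia)
    haveI : (P⟦(-l)⟧).IsStrictlyLE l :=
      P.isStrictlyLE_shift 0 (-l) l (by lia)
    obtain ⟨m, hm⟩ := genBy_of_FG R (P⟦(-l)⟧) (-(n : ℤ) + l) l (fun i => hP.fin _)
      (hP.tower_FG hX (FG.single C))
    exact ⟨m, hm.of_iso (shiftQ P (-l)).symm (Iso.refl _)⟩) hC
  have hpos := hP.homology_pos hU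
  have hneg := hP.tower_homology hT (fun i hi => isZero_of_isGE _ 0 i hi)
  have hfg : FG U := hP.tower_FG hT (FG.single C)
  obtain ⟨A, B, hA, hB, a, b, c, hABC⟩ :=
    TStructure.t.exists_triangle U ((j : ℤ) - 1 - n) ((j : ℤ) - n) (by lia)
  haveI : A.IsLE ((j : ℤ) - 1 - n) := ⟨hA⟩
  haveI : B.IsGE ((j : ℤ) - n) := ⟨hB⟩
  -- homology of `B`
  have hHB : ∀ i : ℤ, (j : ℤ) - n ≤ i → IsZero ((homologyFunctor (ModuleCat.{u} Λ) i).obj U) →
      IsZero ((homologyFunctor (ModuleCat.{u} Λ) i).obj B) := by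
    intro i hi h0
    have h1 := HomologySequence.exact₃ _ hABC i (i + 1) rfl
    have h2 : IsZero ((homologyFunctor (ModuleCat.{u} Λ) (i + 1)).obj A) :=
      isZero_of_isLE A ((j : ℤ) - 1 - n) (i + 1) (by lia)
    exact h1.isZero_of_both_zeros (h0.eq_of_src _ _) (h2.eq_of_tgt _ _)
  haveI : B.IsGE 0 := by
    rw [isGE_iff]
    intro i hi
    rcases lt_or_ge i ((j : ℤ) - n) with h | h
    · exact isZero_of_isGE B ((j : ℤ) - n) i h
    · exact hHB i h (hneg i (by lia) hi)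
  haveI : B.IsLE 0 := by
    rw [isLE_iff]
    intro i hi
    exact hHB i (by lia) (hpos i hi)
  obtain ⟨C₁, ⟨e⟩⟩ := B.exists_iso_singleFunctor_obj_of_isGE_of_isLE 0
  have hfin : Module.Finite Λ C₁ := by
    have h1 := HomologySequence.exact₃ _ hABC 0 1 rfl
    have h2 : IsZero ((homologyFunctor (ModuleCat.{u} Λ) 1).obj A) :=
      isZero_of_isLE A ((j : ℤ) - 1 - n) 1 (by lia)
    have h3 : Epi ((homologyFunctor (ModuleCat.{u} Λ) 0).map b) := h1.epi_f (h2.eq_of_tgt _ _)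
    haveI : Module.Finite Λ ((homologyFunctor (ModuleCat.{u} Λ) 0).obj U) := hfg.homology 0
    haveI : Module.Finite Λ ((homologyFunctor (ModuleCat.{u} Λ) 0).obj B) :=
      Module.Finite.of_surjective ((homologyFunctor (ModuleCat.{u} Λ) 0).map b).hom
        ((ModuleCat.epi_iff_surjective _).mp h3)
    exact finite_of_iso ((homologyFunctor (ModuleCat.{u} Λ) 0).mapIso e ≪≫
      (singleFunctorCompHomologyFunctorIso (ModuleCat.{u} Λ) 0).app C₁)
  obtain ⟨f, hf⟩ := (singleFunctor (ModuleCat.{u} Λ) 0).map_surjective (ι ≫ b ≫ e.hom)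
  refine ⟨C₁, f, hfin, ?_, ?_⟩
  · intro N hN g
    obtain ⟨g', hg'⟩ := hT.factor (fun l hl _ => hN.2 l hl)
      ((singleFunctor (ModuleCat.{u} Λ) 0).map g)
    have h0 : a ≫ g' = 0 :=
      TStructure.t.zero (a ≫ g') ((j : ℤ) - 1 - n) 0 (by lia)
    obtain ⟨g'', hg''⟩ : ∃ g'' : B ⟶ (singleFunctor (ModuleCat.{u} Λ) 0).obj N, g' = b ≫ g'' :=
      Triangle.yoneda_exact₂ _ hABC g' h0
    obtain ⟨h, hh⟩ := (singleFunctor (ModuleCat.{u} Λ) 0).map_surjective (e.inv ≫ g'')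
    refine ⟨h, (singleFunctor (ModuleCat.{u} Λ) 0).map_injective ?_⟩
    rw [Functor.map_comp, hf, hh, assoc, assoc, Iso.hom_inv_id_assoc, ← hg'', hg']
  · intro k hk hjk f'
    have hz : HZ ((Q.obj P)⟦(-k)⟧) (A⟦(1 : ℤ)⟧) := by
      haveI : (A⟦(1 : ℤ)⟧).IsLE ((j : ℤ) - 2 - n) :=
        TStructure.t.isLE_shift A ((j : ℤ) - 1 - n) 1 ((j : ℤ) - 2 - n)
      exact hP.hz_of_isLE k ((j : ℤ) - 2 - n) (by lia) _
    obtain ⟨f'', hf''⟩ : ∃ f'' : (Q.obj P)⟦(-k)⟧ ⟶ U, f' ≫ e.inv = f'' ≫ b :=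
      Triangle.coyoneda_exact₃ _ hABC (f' ≫ e.inv) (hz _)
    have h1 : f' ≫ e.inv = 0 := by rw [hf'', hU k hk f'', zero_comp]
    rw [← cancel_mono e.inv, h1, zero_comp]

/-- The derived version of the main theorem. -/
theorem Good.preenvelope (R : Type u) [CommRing R] [Algebra R Λ] [IsNoetherianRing R]
    [Module.Finite R Λ] (hP : Good n P) (C : ModuleCat.{u} Λ) (hfC : Module.Finite Λ C) :
    ∃ (Y : ModuleCat.{u} Λ) (f : C ⟶ Y), W P Y ∧
      ∀ N, W P N → ∀ g : C ⟶ N, ∃ h : Y ⟶ N, f ≫ h = g := by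
  have key : ∀ j : ℕ, j ≤ n → ∀ (C : ModuleCat.{u} Λ), Module.Finite Λ C →
      (∀ k : ℤ, (j : ℤ) < k →
        HZ ((Q.obj P)⟦(-k)⟧) ((singleFunctor (ModuleCat.{u} Λ) 0).obj C)) →
      ∃ (Y : ModuleCat.{u} Λ) (f : C ⟶ Y), W P Y ∧
        ∀ N, W P N → ∀ g : C ⟶ N, ∃ h : Y ⟶ N, f ≫ h = g := by
    intro j
    induction j using Nat.strong_induction_on with
    | _ j ih =>
      intro hj C hfC hC
      obtain ⟨C₁, f, hf1, hf2, hf3⟩ := hP.step R C j hj hC
      by_cases h2 : j ≤ 2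
      · refine ⟨C₁, f, ⟨hf1, fun k hk => hf3 k hk (by lia)⟩, hf2⟩
      · obtain ⟨Y, f', hY, hY'⟩ := ih (j - 2) (by lia) (by lia) C₁ hf1
          (fun k hk => hf3 k (by lia) (by lia))
        refine ⟨Y, f ≫ f', hY, fun N hN g => ?_⟩
        obtain ⟨h, hh⟩ := hf2 N hN g
        obtain ⟨h', hh'⟩ := hY' N hN h
        exact ⟨h', by rw [assoc, hh', hh]⟩
  refine key n le_rfl C hfC (fun k hk => ?_)
  exact hP.hz_of_isLE k 0 (by lia) _

end main

end K9h74.TP
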