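import Mathlib
import Pool.Agent.K9h74.TP.Der

set_option linter.unusedSectionVars false
set_option linter.style.longLine false
set_option linter.style.haveILetI false

open CategoryTheory Category Limits Pretriangulated ZeroObject

namespace K9h74.TP

universe v u w

section

variable {C : Type u} [Category.{v} C] [Abelian C] [HasDerivedCategory.{w} C]

open DerivedCategory

/-- Presilting in `K(C)` implies presilting in `D(C)` for K-projective complexes. -/
theorem presilt_of_homotopy (P : CochainComplex C ℤ) [P.IsKProjective]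
    (h : ∀ i : ℤ, 0 < i → ∀ f : (HomotopyCategory.quotient C (ComplexShape.up ℤ)).obj P ⟶
      ((HomotopyCategory.quotient C (ComplexShape.up ℤ)).obj P)⟦i⟧, f = 0) :
    Presilt (Q.obj P) := by
  intro i hi
  have h1 : HZ (Qh.obj ((HomotopyCategory.quotient C (ComplexShape.up ℤ)).obj P))
      (Qh.obj (((HomotopyCategory.quotient C (ComplexShape.up ℤ)).obj P)⟦i⟧)) := by
    intro f
    obtain ⟨g, rfl⟩ := (CochainComplex.IsKProjective.Qh_map_bijective P
      (((HomotopyCategory.quotient C (ComplexShape.up ℤ)).obj P)⟦i⟧)).surjective f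
    rw [h i hi g, Functor.map_zero]
  exact h1.of_iso ((quotientCompQhIso C).app P)
    ((Qh.commShiftIso i).app _ ≪≫
      (shiftFunctor (DerivedCategory C) i).mapIso ((quotientCompQhIso C).app P))

/-- generation in `K(C)` gives `FF`. -/
theorem ff_of_homotopy (P : CochainComplex C ℤ) (hP : Presilt (Q.obj P))
    (X : HomotopyCategory C (ComplexShape.up ℤ))
    (h : ∀ S : ObjectProperty (HomotopyCategory C (ComplexShape.up ℤ)), S.IsTriangulated →
      S.IsClosedUnderIsomorphisms →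
      (∀ (Y : HomotopyCategory C (ComplexShape.up ℤ)) (k : ℕ)
        (p : Fin k → (Y ⟶ (HomotopyCategory.quotient C (ComplexShape.up ℤ)).obj P))
        (q : Fin k → ((HomotopyCategory.quotient C (ComplexShape.up ℤ)).obj P ⟶ Y)),
        ∑ i, p i ≫ q i = 𝟙 Y → S Y) → S X) :
    FF (Q.obj P) (Qh.obj X) := by
  haveI := FF.isTriangulated hP
  refine h ((FF (Q.obj P)).inverseImage Qh) inferInstance inferInstance ?_
  intro Y k p q hpq
  show FF (Q.obj P) (Qh.obj Y)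
  let e : Qh.obj ((HomotopyCategory.quotient C (ComplexShape.up ℤ)).obj P) ≅ Q.obj P :=
    (quotientCompQhIso C).app P
  refine FF.of_add (k := k) (fun i => Qh.map (p i) ≫ e.hom) (fun i => e.inv ≫ Qh.map (q i)) ?_
  have h1 := congrArg (fun f => Qh.map f) hpq
  simp only [Functor.map_sum, CategoryTheory.Functor.map_id] at h1
  rw [← h1]
  refine Finset.sum_congr rfl fun i _ => ?_
  rw [assoc, Iso.hom_inv_id_assoc, Functor.map_comp]

end

section

variable {Λ : Type u} [Ring Λ] [HasDerivedCategory.{w} (ModuleCat.{u} Λ)]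

open DerivedCategory

theorem single_homotopy {K : CochainComplex (ModuleCat.{u} Λ) ℤ} {N : ModuleCat.{u} Λ} (a : ℤ)
    (ψ : K ⟶ (HomologicalComplex.single (ModuleCat.{u} Λ) (ComplexShape.up ℤ) a).obj N)
    (θ : K.X (a + 1) ⟶ N)
    (h : ψ.f a ≫ (HomologicalComplex.singleObjXSelf (ComplexShape.up ℤ) a N).hom =
      K.d a (a + 1) ≫ θ) : Nonempty (Homotopy ψ 0) := by
  let S := (HomologicalComplex.single (ModuleCat.{u} Λ) (ComplexShape.up ℤ) a).obj N
  let e : S.X a ≅ N := HomologicalComplex.singleObjXSelf (ComplexShape.up ℤ) a N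
  let hm : ∀ i j : ℤ, K.X i ⟶ S.X j := fun i j =>
    if h : i = a + 1 ∧ j = a then
      (K.XIsoOfEq h.1).hom ≫ θ ≫ e.inv ≫ (S.XIsoOfEq h.2.symm).hom else 0
  refine ⟨{ hom := hm, zero := ?_, comm := ?_ }⟩
  · intro i j hij
    simp only [hm]
    rw [dif_neg]
    rintro ⟨rfl, rfl⟩
    exact hij (by simp)
  · intro i
    by_cases hi : i = a
    · subst hi
      rw [dNext_eq hm (show (ComplexShape.up ℤ).Rel i (i + 1) by simp),
        prevD_eq hm (show (ComplexShape.up ℤ).Rel (i - 1) i by simp)]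
      have h1 : hm i (i - 1) = 0 := by
        simp only [hm]
        rw [dif_neg]
        rintro ⟨h1, -⟩
        lia
      have h2 : hm (i + 1) i = θ ≫ e.inv := by
        simp [hm]
      rw [h1, h2, zero_comp, add_zero]
      have h3 : ψ.f i ≫ e.hom = K.d i (i + 1) ≫ θ := h
      rw [← assoc, ← h3, assoc, Iso.hom_inv_id, comp_id]
      simp
    · exact (HomologicalComplex.isZero_single_obj_X (ComplexShape.up ℤ) a N i hi).eq_of_tgt _ _

theorem hz_single_iff (K : CochainComplex (ModuleCat.{u} Λ) ℤ) [K.IsKProjective]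
    (N : ModuleCat.{u} Λ) (a : ℤ) :
    HZ (Q.obj K)
      (Q.obj ((HomologicalComplex.single (ModuleCat.{u} Λ) (ComplexShape.up ℤ) a).obj N)) ↔
    ∀ φ : K.X a ⟶ N, K.d (a - 1) a ≫ φ = 0 → ∃ θ : K.X (a + 1) ⟶ N, φ = K.d a (a + 1) ≫ θ := by
  constructor
  · intro h φ hφ
    let ψ : K ⟶ (HomologicalComplex.single (ModuleCat.{u} Λ) (ComplexShape.up ℤ) a).obj N :=
      HomologicalComplex.mkHomToSingle φ (fun i hi => by
        have : i = a - 1 := by
          have : i + 1 = a := hi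
          lia
        subst this
        exact hφ)
    have hψ : ψ.f a = φ ≫ (HomologicalComplex.singleObjXSelf (ComplexShape.up ℤ) a N).inv :=
      HomologicalComplex.mkHomToSingle_f _ _
    obtain ⟨H⟩ := Q_map_zero K _ ψ (h _)
    have h2 := H.comm a
    rw [dNext_eq H.hom (show (ComplexShape.up ℤ).Rel a (a + 1) by simp),
      prevD_eq H.hom (show (ComplexShape.up ℤ).Rel (a - 1) a by simp)] at h2
    have hd : ((HomologicalComplex.single (ModuleCat.{u} Λ) (ComplexShape.up ℤ) a).obj N).d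
        (a - 1) a = 0 :=
      (HomologicalComplex.isZero_single_obj_X (ComplexShape.up ℤ) a _ (a - 1)
        (by lia)).eq_of_src _ _
    rw [hd, comp_zero, add_zero, HomologicalComplex.zero_f, add_zero, hψ] at h2
    refine ⟨H.hom (a + 1) a ≫ (HomologicalComplex.singleObjXSelf (ComplexShape.up ℤ) a N).hom, ?_⟩
    rw [← assoc, ← h2]
    simp
  · intro h f
    obtain ⟨ψ, rfl⟩ := Q_map_surj K _ f
    have hd : ((HomologicalComplex.single (ModuleCat.{u} Λ) (ComplexShape.up ℤ) a).obj N).d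
        (a - 1) a = 0 :=
      (HomologicalComplex.isZero_single_obj_X (ComplexShape.up ℤ) a _ (a - 1)
        (by lia)).eq_of_src _ _
    obtain ⟨θ, hθ⟩ := h (ψ.f a ≫ (HomologicalComplex.singleObjXSelf (ComplexShape.up ℤ) a N).hom)
      (by rw [← assoc, ← ψ.comm, hd, comp_zero, zero_comp])
    obtain ⟨H⟩ := single_homotopy a ψ θ hθ
    rw [Q_map_eq_of_homotopy _ H, Functor.map_zero]

/-- `Hom(K⟦-k⟧, N) = 0` in terms of the terms of `K`. -/
theorem hz_shift_iff (K : CochainComplex (ModuleCat.{u} Λ) ℤ) [K.IsKProjective]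
    (N : ModuleCat.{u} Λ) (k : ℤ) :
    HZ ((Q.obj K)⟦(-k)⟧) ((singleFunctor (ModuleCat.{u} Λ) 0).obj N) ↔
    ∀ φ : K.X (-k) ⟶ N, K.d (-k - 1) (-k) ≫ φ = 0 →
      ∃ θ : K.X (-k + 1) ⟶ N, φ = K.d (-k) (-k + 1) ≫ θ := by
  rw [← hz_single_iff K N (-k), HZ.left_iff, neg_neg]
  have e : ((singleFunctor (ModuleCat.{u} Λ) 0).obj N)⟦k⟧ ≅
      Q.obj ((HomologicalComplex.single (ModuleCat.{u} Λ) (ComplexShape.up ℤ) (-k)).obj N) :=
    ((singleFunctors (ModuleCat.{u} Λ)).shiftIso k (-k) 0 (by lia)).app N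
  exact ⟨fun h => h.of_iso (Iso.refl _) e, fun h => h.of_iso (Iso.refl _) e.symm⟩

theorem homology_isZero_of_exact {P : CochainComplex (ModuleCat.{u} Λ) ℤ} (i : ℤ)
    (h : Function.Exact (P.d (i - 1) i).hom (P.d i (i + 1)).hom) : IsZero (P.homology i) := by
  rw [← HomologicalComplex.exactAt_iff_isZero_homology,
    HomologicalComplex.exactAt_iff' P (i - 1) i (i + 1) (by simp) (by simp),
    ShortComplex.ShortExact.moduleCat_exact_iff_function_exact]
  exact h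

theorem homology_zero_iso {P : CochainComplex (ModuleCat.{u} Λ) ℤ} {M : ModuleCat.{u} Λ}
    (h1 : IsZero (P.X 1)) (ε : P.X 0 ⟶ M) (hε : Function.Surjective ε.hom)
    (h : Function.Exact (P.d (-1) 0).hom ε.hom) : Nonempty (P.homology 0 ≅ M) := by
  have h0 : P.d (-1) 0 ≫ ε = 0 := by
    ext x
    exact h.apply_apply_eq_zero x
  let S' := ShortComplex.mk (P.d (-1) 0) ε h0
  have hS' : S'.Exact := (ShortComplex.ShortExact.moduleCat_exact_iff_function_exact S').mpr h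
  haveI : Epi S'.g := (ModuleCat.epi_iff_surjective ε).mpr hε
  let D := ShortComplex.LeftHomologyData.ofIsColimitCokernelCofork (P.sc' (-1) 0 1)
    (h1.eq_of_tgt _ _) (CokernelCofork.ofπ ε h0) hS'.gIsCokernel
  exact ⟨ShortComplex.homologyMapIso (P.isoSc' (-1) 0 1 (by simp) (by simp)) ≪≫ D.homologyIso⟩

/-- The truncation triangle `A → P → M`. -/
theorem trunc_triangle {n : ℕ} (hn : 1 ≤ n) (P : CochainComplex (ModuleCat.{u} Λ) ℤ)
    [P.IsStrictlyLE 0] (hex : ∀ i : ℤ, -(n : ℤ) < i → i < 0 → IsZero (P.homology i))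
    {M : ModuleCat.{u} Λ} (e0 : P.homology 0 ≅ M) :
    ∃ (A : DerivedCategory (ModuleCat.{u} Λ)) (a : A ⟶ Q.obj P)
      (b : Q.obj P ⟶ (singleFunctor (ModuleCat.{u} Λ) 0).obj M)
      (c : (singleFunctor (ModuleCat.{u} Λ) 0).obj M ⟶ A⟦(1 : ℤ)⟧),
      Triangle.mk a b c ∈ distTriang _ ∧ A.IsLE (-(n : ℤ)) := by
  obtain ⟨A, B, hA, hB, a, b, c, hABC⟩ :=
    TStructure.t.exists_triangle (Q.obj P) (-(n : ℤ)) (-(n : ℤ) + 1) rfl
  haveI : A.IsLE (-(n : ℤ)) := ⟨hA⟩
  haveI : B.IsGE (-(n : ℤ) + 1) := ⟨hB⟩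
  have hHB : ∀ i : ℤ, -(n : ℤ) ≤ i →
      IsZero ((homologyFunctor (ModuleCat.{u} Λ) i).obj (Q.obj P)) →
      IsZero ((homologyFunctor (ModuleCat.{u} Λ) i).obj B) := by
    intro i hi h0
    have h1 := HomologySequence.exact₃ _ hABC i (i + 1) rfl
    have h2 : IsZero ((homologyFunctor (ModuleCat.{u} Λ) (i + 1)).obj A) :=
      isZero_of_isLE A (-(n : ℤ)) (i + 1) (by lia)
    exact h1.isZero_of_both_zeros (h0.eq_of_src _ _) (h2.eq_of_tgt _ _)
  haveI : B.IsGE 0 := by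
    rw [isGE_iff]
    intro i hi
    rcases lt_or_ge i (-(n : ℤ) + 1) with h | h
    · exact isZero_of_isGE B (-(n : ℤ) + 1) i h
    · exact hHB i (by lia) ((hex i (by lia) hi).of_iso ((homologyFunctorFactors _ i).app P))
  haveI : B.IsLE 0 := by
    rw [isLE_iff]
    intro i hi
    exact hHB i (by lia) (isZero_of_isLE (Q.obj P) 0 i hi)
  obtain ⟨X, ⟨e⟩⟩ := B.exists_iso_singleFunctor_obj_of_isGE_of_isLE 0
  have hiso : IsIso ((homologyFunctor (ModuleCat.{u} Λ) 0).map b) := by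
    have h1 := HomologySequence.exact₃ _ hABC 0 1 rfl
    have h2 : IsZero ((homologyFunctor (ModuleCat.{u} Λ) 1).obj A) :=
      isZero_of_isLE A (-(n : ℤ)) 1 (by lia)
    have h3 : Epi ((homologyFunctor (ModuleCat.{u} Λ) 0).map b) := h1.epi_f (h2.eq_of_tgt _ _)
    have h4 := HomologySequence.exact₂ _ hABC 0
    have h5 : IsZero ((homologyFunctor (ModuleCat.{u} Λ) 0).obj A) :=
      isZero_of_isLE A (-(n : ℤ)) 0 (by lia)
    have h6 : Mono ((homologyFunctor (ModuleCat.{u} Λ) 0).map b) := h4.mono_g (h5.eq_of_src _ _)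
    exact isIso_of_mono_of_epi _
  have e1 : X ≅ M :=
    ((singleFunctorCompHomologyFunctorIso (ModuleCat.{u} Λ) 0).app X).symm ≪≫
      ((homologyFunctor (ModuleCat.{u} Λ) 0).mapIso e).symm ≪≫
      (asIso ((homologyFunctor (ModuleCat.{u} Λ) 0).map b)).symm ≪≫
      (homologyFunctorFactors _ 0).app P ≪≫ e0
  let e2 : B ≅ (singleFunctor (ModuleCat.{u} Λ) 0).obj M :=
    e ≪≫ (singleFunctor (ModuleCat.{u} Λ) 0).mapIso e1
  refine ⟨A, a, b ≫ e2.hom, e2.inv ≫ c, ?_, inferInstance⟩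
  refine isomorphic_distinguished _ hABC _ ?_
  refine Triangle.isoMk _ _ (Iso.refl _) (Iso.refl _) e2.symm ?_ ?_ ?_
  · show a ≫ 𝟙 (Q.obj P) = 𝟙 A ≫ a
    rw [comp_id, id_comp]
  · show (b ≫ e2.hom) ≫ e2.inv = 𝟙 (Q.obj P) ≫ b
    rw [assoc, Iso.hom_inv_id, comp_id, id_comp]
  · show (e2.inv ≫ c) ≫ (shiftFunctor (DerivedCategory (ModuleCat.{u} Λ)) (1 : ℤ)).map (𝟙 A) =
      e2.inv ≫ c
    rw [CategoryTheory.Functor.map_id, comp_id]

/-- `Ext^k(M, N) = 0` iff `Hom(P⟦-k⟧, N) = 0` for `k < n`. -/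
theorem ext_iff {n : ℕ} (hn : 1 ≤ n) (P : CochainComplex (ModuleCat.{u} Λ) ℤ)
    [P.IsStrictlyLE 0] (hex : ∀ i : ℤ, -(n : ℤ) < i → i < 0 → IsZero (P.homology i))
    {M : ModuleCat.{u} Λ} (e0 : P.homology 0 ≅ M) (N : ModuleCat.{u} Λ) (k : ℕ) (hk : k < n) :
    Subsingleton (Abelian.Ext.{u} M N k) ↔
      HZ ((Q.obj P)⟦(-(k : ℤ))⟧) ((singleFunctor (ModuleCat.{u} Λ) 0).obj N) := by
  obtain ⟨A, a, b, c, hABC, hA⟩ := trunc_triangle hn P hex e0
  have h1 : Subsingleton (Abelian.Ext.{u} M N k) ↔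
      HZ ((singleFunctor (ModuleCat.{u} Λ) 0).obj M)
        (((singleFunctor (ModuleCat.{u} Λ) 0).obj N)⟦(k : ℤ)⟧) := by
    rw [(Abelian.Ext.homEquiv (X := M) (Y := N) (n := k)).subsingleton_congr]
    exact ⟨fun h f => Subsingleton.elim _ _, fun h => ⟨fun f g => by rw [h f, h g]⟩⟩
  rw [h1, HZ.left_iff, neg_neg]
  haveI hT : (((singleFunctor (ModuleCat.{u} Λ) 0).obj N)⟦(k : ℤ)⟧).IsGE (-(k : ℤ)) :=
    TStructure.t.isGE_shift _ 0 (k : ℤ) (-(k : ℤ))
  constructor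
  · intro h g
    have h0 : a ≫ g = 0 := TStructure.t.zero (a ≫ g) (-(n : ℤ)) (-(k : ℤ)) (by lia)
    obtain ⟨g', hg'⟩ : ∃ g', g = b ≫ g' := Triangle.yoneda_exact₂ _ hABC g h0
    rw [hg', h g', comp_zero]
  · intro h f
    obtain ⟨f', hf'⟩ : ∃ f' : A⟦(1 : ℤ)⟧ ⟶ _, f = c ≫ f' :=
      Triangle.yoneda_exact₃ _ hABC f (h _)
    haveI : (A⟦(1 : ℤ)⟧).IsLE (-(n : ℤ) - 1) :=
      TStructure.t.isLE_shift A (-(n : ℤ)) 1 (-(n : ℤ) - 1)
    have h0 : f' = 0 := TStructure.t.zero f' (-(n : ℤ) - 1) (-(k : ℤ)) (by lia)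
    rw [hf', h0, comp_zero]

end

end K9h74.TP
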