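import Mathlib

/-!
# Definitions for the theorem on preenvelopes for `M^{⊥ τ_n}`

`R` is a commutative artinian ring and `Λ` an `R`-algebra which is finitely generated as an
`R`-module (an Artin algebra); modules are left modules. `mod Λ` is the category of finitely
generated `Λ`-modules, seen inside Mathlib's `ModuleCat Λ`.
-/

set_option linter.style.longLine false

open CategoryTheory Limits Pretriangulated

namespace K9h74.TP

universe u

/-! ### Minimal projective resolutions -/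

section resolution

/-- Cochain complexes of left `Λ`-modules. -/
abbrev Cx (Λ : Type u) [Ring Λ] : Type (u + 1) := CochainComplex (ModuleCat.{u} Λ) ℤ

variable {Λ : Type u} [Ring Λ]

/-- The module in degree `i` of a complex `P`. -/
def Cx.mod (P : Cx Λ) (i : ℤ) : ModuleCat.{u} Λ := P.X i

/-- The differential `P^i → P^j` of a complex `P` (nonzero only for `j = i + 1`). -/
def Cx.diff (P : Cx Λ) (i j : ℤ) : P.mod i ⟶ P.mod j := P.d i j

/-- `A → B → C` is exact at `B`. -/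
def ExactPair {A B C : ModuleCat.{u} Λ} (f : A ⟶ B) (g : B ⟶ C) : Prop :=
  Function.Exact f.hom g.hom

/-- The kernel of `f : A → B` is a superfluous submodule of `A`: if `ker f + U = A`
then `U = A`. -/
def SuperfluousKer {A B : ModuleCat.{u} Λ} (f : A ⟶ B) : Prop :=
  ∀ U : Submodule Λ A, LinearMap.ker f.hom ⊔ U = ⊤ → U = ⊤

/-- `IsMinTrunc n M P ε`: the cochain complex `P` is the complex
`P_{≥ -n}(M) = (P_n → ⋯ → P_1 → P_0)`, with `P_i` in degree `-i`, given by a minimal projective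
resolution `⋯ → P_1 → P_0 → M → 0` in `mod Λ` with augmentation `ε : P_0 → M`. That is: all `P_i`
are finitely generated projective, `P_n → ⋯ → P_0 → M → 0` is exact at `M` and at `P_i` for
`0 ≤ i < n`, and the kernels of `P_0 → M` and of `P_i → P_{i-1}` (`1 ≤ i ≤ n`) are superfluous
(so each `P_i → Ω^i M`, `0 ≤ i ≤ n`, is a projective cover). -/
structure IsMinTrunc (n : ℕ) (M : ModuleCat.{u} Λ) (P : Cx Λ) (ε : P.mod 0 ⟶ M) : Prop where
  finite : ∀ i : ℤ, Module.Finite Λ (P.mod i)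
  projective : ∀ i : ℤ, Module.Projective Λ (P.mod i)
  zero_of_lt : ∀ i : ℤ, i < -(n : ℤ) → Subsingleton (P.mod i)
  zero_of_gt : ∀ i : ℤ, 0 < i → Subsingleton (P.mod i)
  surjective : Function.Surjective ε.hom
  exact_zero : ExactPair (P.diff (-1) 0) ε
  exact : ∀ i : ℤ, -(n : ℤ) < i → i < 0 → ExactPair (P.diff (i - 1) i) (P.diff i (i + 1))
  minimal_zero : SuperfluousKer ε
  minimal : ∀ i : ℤ, -(n : ℤ) ≤ i → i < 0 → SuperfluousKer (P.diff i (i + 1))

end resolution

/-! ### Silting complexes -/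

section silting

/-- The homotopy category `K(Mod Λ)` of cochain complexes of left `Λ`-modules, with its usual
(pre)triangulated structure (from Mathlib). -/
def KCat (Λ : Type u) [Ring Λ] : Type (u + 1) :=
  HomotopyCategory (ModuleCat.{u} Λ) (ComplexShape.up ℤ)

variable {Λ : Type u} [Ring Λ]

noncomputable instance KCat.cat : Category.{u} (KCat Λ) :=
  (inferInstance : Category.{u} (HomotopyCategory (ModuleCat.{u} Λ) (ComplexShape.up ℤ)))

noncomputable instance KCat.preadd : Preadditive (KCat Λ) :=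
  (inferInstance : Preadditive (HomotopyCategory (ModuleCat.{u} Λ) (ComplexShape.up ℤ)))

noncomputable instance KCat.shift : HasShift (KCat Λ) ℤ :=
  (inferInstance : HasShift (HomotopyCategory (ModuleCat.{u} Λ) (ComplexShape.up ℤ)) ℤ)

instance KCat.hasZero : HasZeroObject (KCat Λ) :=
  (inferInstance : HasZeroObject (HomotopyCategory (ModuleCat.{u} Λ) (ComplexShape.up ℤ)))

instance KCat.shiftAdd (n : ℤ) : (shiftFunctor (KCat Λ) n).Additive :=
  (inferInstance :
    (shiftFunctor (HomotopyCategory (ModuleCat.{u} Λ) (ComplexShape.up ℤ)) n).Additive)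

noncomputable instance KCat.pretri : Pretriangulated (KCat Λ) :=
  (inferInstance : Pretriangulated (HomotopyCategory (ModuleCat.{u} Λ) (ComplexShape.up ℤ)))

/-- A complex, viewed in the homotopy category `K(Mod Λ)`. -/
noncomputable def toK (P : Cx Λ) : KCat Λ :=
  (HomotopyCategory.quotient (ModuleCat.{u} Λ) (ComplexShape.up ℤ)).obj P

/-- The objects of `K^b(proj Λ)`: bounded complexes of finitely generated projective modules, up to
isomorphism in `K(Mod Λ)`. -/
def IsKbProj (X : KCat Λ) : Prop :=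
  ∃ L : Cx Λ, (∀ i, Module.Finite Λ (L.mod i)) ∧ (∀ i, Module.Projective Λ (L.mod i)) ∧
    (∃ a b : ℤ, ∀ i, i < a ∨ b < i → Subsingleton (L.mod i)) ∧ Nonempty (X ≅ toK L)

/-- `X ∈ add(P)`: `X` is a retract (equivalently, a direct summand) of a finite direct sum
`P^m`. -/
def IsInAdd (P X : KCat Λ) : Prop :=
  ∃ (m : ℕ) (p : Fin m → (X ⟶ P)) (q : Fin m → (P ⟶ X)), ∑ i, p i ≫ q i = 𝟙 X

/-- A bounded complex `P` of finitely generated projective modules is silting if
`Hom(P, P[i]) = 0` in `K^b(proj Λ)` for all `i > 0`, and the smallest (strictly full) triangulated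
subcategory containing `add(P)` is all of `K^b(proj Λ)`, i.e. every triangulated subcategory `S`
which contains `add(P)` contains every object of `K^b(proj Λ)`. -/
structure IsSilting (P : Cx Λ) : Prop where
  presilting : ∀ i : ℤ, 0 < i → ∀ f : toK P ⟶ (toK P)⟦i⟧, f = 0
  generates : ∀ S : ObjectProperty (KCat Λ), S.IsTriangulated → S.IsClosedUnderIsomorphisms →
    (∀ X, IsInAdd (toK P) X → S X) → ∀ X, IsKbProj X → S X

end silting

/-! ### The duality `D`, the functor `ν` and the Auslander–Reiten translation -/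

section nu

variable (R : Type u) {Λ : Type u} [CommRing R] [Ring Λ] [Algebra R Λ]
  (E : Type u) [AddCommGroup E] [Module R E]

variable {X Y : Type u} [AddCommGroup X] [Module Λ X] [AddCommGroup Y] [Module Λ Y]

/-- `E` is an injective envelope of the `R`-module `R / rad R`. The duality of the Artin algebra
is `D = Hom_R(-, E)`. -/
def IsInjEnvelope : Prop :=
  Module.Injective R E ∧ ∃ i : (R ⧸ Ring.jacobson R) →ₗ[R] E, Function.Injective i ∧
    ∀ U : Submodule R E, U ≠ ⊥ → U ⊓ LinearMap.range i ≠ ⊥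

/-- Right multiplication `f · a` of `f ∈ Hom_Λ(X, Λ)` by `a ∈ Λ`, i.e. `(f · a)(x) = f(x) a`. -/
def rmul (f : X →ₗ[Λ] Λ) (a : Λ) : X →ₗ[Λ] Λ := (LinearMap.toSpanSingleton Λ Λ a).comp f

@[simp] theorem rmul_apply (f : X →ₗ[Λ] Λ) (a : Λ) (x : X) : rmul f a x = f x * a := rfl

theorem rmul_add (f g : X →ₗ[Λ] Λ) (a : Λ) : rmul (f + g) a = rmul f a + rmul g a := by
  ext x; simp [add_mul]

theorem rmul_smul (r : R) (f : X →ₗ[Λ] Λ) (a : Λ) : rmul (r • f) a = r • rmul f a := by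
  ext x; simp

variable (X) in
/-- `ν X = D Hom_Λ(X, Λ)` with `D = Hom_R(-, E)`. -/
def Nu : Type u := (X →ₗ[Λ] Λ) →ₗ[R] E

instance : AddCommGroup (Nu R (Λ := Λ) E X) :=
  (LinearMap.addCommGroup : AddCommGroup ((X →ₗ[Λ] Λ) →ₗ[R] E))

variable {R E} in
/-- The value of `h ∈ ν X` at `f ∈ Hom_Λ(X, Λ)`. -/
def Nu.ev (h : Nu R (Λ := Λ) E X) (f : X →ₗ[Λ] Λ) : E := DFunLike.coe (F := (X →ₗ[Λ] Λ) →ₗ[R] E) h f

variable {R E} in
theorem Nu.ext {h k : Nu R (Λ := Λ) E X} (H : ∀ f, h.ev f = k.ev f) : h = k :=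
  LinearMap.ext H

variable {R E} in
theorem Nu.ev_add (h : Nu R (Λ := Λ) E X) (f g : X →ₗ[Λ] Λ) : h.ev (f + g) = h.ev f + h.ev g :=
  LinearMap.map_add (show (X →ₗ[Λ] Λ) →ₗ[R] E from h) f g

variable {R E} in
theorem Nu.ev_smul (h : Nu R (Λ := Λ) E X) (r : R) (f : X →ₗ[Λ] Λ) :
    h.ev (r • f) = r • h.ev f :=
  LinearMap.map_smul (show (X →ₗ[Λ] Λ) →ₗ[R] E from h) r f

variable {R E} in
theorem Nu.ev_zero (h : Nu R (Λ := Λ) E X) : h.ev 0 = 0 :=
  LinearMap.map_zero (show (X →ₗ[Λ] Λ) →ₗ[R] E from h)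

variable {R E} in
/-- The left action of `Λ` on `ν X`: `(a • h)(f) = h(f · a)`. -/
def Nu.act (a : Λ) (h : Nu R (Λ := Λ) E X) : Nu R (Λ := Λ) E X :=
  ({ toFun := fun f => h.ev (rmul f a)
     map_add' := fun f g => by rw [rmul_add, Nu.ev_add]
     map_smul' := fun r f => by rw [rmul_smul, Nu.ev_smul]; rfl } :
    (X →ₗ[Λ] Λ) →ₗ[R] E)

/-- The left `Λ`-module structure on `ν X`: `(a • h)(f) = h(f · a)`. -/
instance : Module Λ (Nu R (Λ := Λ) E X) where
  smul := Nu.act
  one_smul h := Nu.ext fun f => by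
    show h.ev (rmul f 1) = h.ev f
    congr 1; ext x; simp
  mul_smul a b h := Nu.ext fun f => by
    show h.ev (rmul f (a * b)) = h.ev (rmul (rmul f a) b)
    congr 1; ext x; simp [mul_assoc]
  smul_zero a := Nu.ext fun f => rfl
  smul_add a h k := Nu.ext fun f => rfl
  add_smul a b h := Nu.ext fun f => by
    show h.ev (rmul f (a + b)) = h.ev (rmul f a) + h.ev (rmul f b)
    rw [← Nu.ev_add]
    congr 1; ext x; simp [mul_add]
  zero_smul h := Nu.ext fun f => by
    show h.ev (rmul f 0) = 0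
    rw [← Nu.ev_zero h]
    congr 1; ext x; simp

theorem Nu.smul_ev (a : Λ) (h : Nu R (Λ := Λ) E X) (f : X →ₗ[Λ] Λ) :
    (a • h).ev f = h.ev (rmul f a) := rfl

/-- For `d : X → Y`, the kernel of `ν(d) : ν X → ν Y`, `h ↦ (g ↦ h(g ∘ d))`. If `X → Y → Z → 0` is
a minimal projective presentation, then this is `τ Z = D Tr Z`. -/
def tau (d : X →ₗ[Λ] Y) : Submodule Λ (Nu R (Λ := Λ) E X) where
  carrier := {h | ∀ g : Y →ₗ[Λ] Λ, h.ev (g.comp d) = 0}
  add_mem' {h k} hh hk g := by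
    show h.ev (g.comp d) + k.ev (g.comp d) = 0
    rw [hh g, hk g, add_zero]
  zero_mem' g := rfl
  smul_mem' a h hh g := hh (rmul g a)

end nu

/-! ### The class `M^{⊥ τ_n}` -/

section perp

variable (R : Type u) {Λ : Type u} [CommRing R] [Ring Λ] [Algebra R Λ]
  (E : Type u) [AddCommGroup E] [Module R E]

/-- `tau` as an object of the category of `Λ`-modules: the kernel of `ν(d) : ν X → ν Y`. -/
def tauMod {X Y : ModuleCat.{u} Λ} (d : X ⟶ Y) : ModuleCat.{u} Λ :=
  ModuleCat.of Λ (tau R E d.hom)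

/-- For `P = P_{≥ -n}(M)`, the module `τ_n M = τ Ω^{n-1} M`, computed from the minimal projective
presentation `P_n → P_{n-1} → Ω^{n-1} M → 0` as the kernel of `ν P_n → ν P_{n-1}`. -/
def tauN (n : ℕ) (P : Cx Λ) : ModuleCat.{u} Λ :=
  tauMod R E (P.diff (-(n : ℤ)) (-(n : ℤ) + 1))

/-- `N ∈ M^{⊥ τ_n}`: `N` is finitely generated, `Hom_Λ(N, τ_n M) = 0` and `Ext^i_Λ(M, N) = 0` for
`1 ≤ i ≤ n - 1`. Here `P = P_{≥ -n}(M)`. -/
def TauPerp (n : ℕ) (M : ModuleCat.{u} Λ) (P : Cx Λ) (N : ModuleCat.{u} Λ) : Prop :=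
  Module.Finite Λ N ∧ (∀ F : N ⟶ tauN R E n P, F = 0) ∧
    ∀ i : ℕ, 1 ≤ i → i ≤ n - 1 → Subsingleton (Abelian.Ext.{u} M N i)

end perp

/-- A class `𝒳` of modules is preenveloping in `mod Λ` if every finitely generated module `C` has
a morphism `f : C → Y` with `Y ∈ 𝒳` such that every morphism from `C` to an `X ∈ 𝒳` factors
through `f`. -/
def IsPreenveloping {Λ : Type u} [Ring Λ] (𝒳 : ModuleCat.{u} Λ → Prop) : Prop :=
  ∀ C : ModuleCat.{u} Λ, Module.Finite Λ C → ∃ (Y : ModuleCat.{u} Λ) (f : C ⟶ Y), 𝒳 Y ∧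
    ∀ X : ModuleCat.{u} Λ, 𝒳 X → ∀ g : C ⟶ X, ∃ h : Y ⟶ X, f ≫ h = g

end K9h74.TP
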