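import Mathlib
import Pool.Agent.K9h74.TP.Defs

/-!
# The Auslander–Reiten formula part: `Hom_Λ(N, τ) = 0` iff every map `X → N` factors through `d`
-/

set_option linter.unusedSectionVars false
set_option linter.style.longLine false
set_option linter.style.haveILetI false

namespace K9h74.TP

universe u

section nu

variable (R : Type u) {Λ : Type u} [CommRing R] [Ring Λ] [Algebra R Λ]
  (E : Type u) [AddCommGroup E] [Module R E]

variable {X Y N : Type u} [AddCommGroup X] [Module Λ X] [AddCommGroup Y] [Module Λ Y]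
  [AddCommGroup N] [Module Λ N]

theorem Nu.ev_sum {m : ℕ} (h : Nu R (Λ := Λ) E X) (f : Fin m → (X →ₗ[Λ] Λ)) :
    h.ev (∑ i, f i) = ∑ i, h.ev (f i) :=
  map_sum (show (X →ₗ[Λ] Λ) →ₗ[R] E from h) f _

theorem Nu.sum_ev {m : ℕ} (h : Fin m → Nu R (Λ := Λ) E X) (f : X →ₗ[Λ] Λ) :
    (∑ i, h i).ev f = ∑ i, (h i).ev f :=
  LinearMap.sum_apply (σ₁₂ := RingHom.id R) (M := X →ₗ[Λ] Λ) (M₂ := E) Finset.univ h f

theorem exists_functional [IsArtinianRing R] (i : (R ⧸ Ring.jacobson R) →ₗ[R] E)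
    (hi : Function.Injective i) {V : Type u} [AddCommGroup V] [Module R V] [Module.Finite R V]
    (S : Submodule R V) (hS : S ≠ ⊤) : ∃ χ : V →ₗ[R] E, χ ≠ 0 ∧ S ≤ LinearMap.ker χ := by
  obtain ⟨T, hT, hST⟩ := (eq_top_or_exists_le_coatom S).resolve_left hS
  have h1 : IsSimpleModule R (V ⧸ T) := isSimpleModule_iff_isCoatom.mpr hT
  obtain ⟨I, hI, ⟨e⟩⟩ := isSimpleModule_iff_quot_maximal.mp h1
  have hJI : Ring.jacobson R ≤ I := by
    rw [Ring.jacobson_eq_sInf_isMaximal]
    exact sInf_le hI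
  haveI : IsSemisimpleModule R (R ⧸ Ring.jacobson R) :=
    (IsArtinian.isSemisimpleModule_iff_jacobson R (R ⧸ Ring.jacobson R)).mpr
      (Module.jacobson_quotient_jacobson R R)
  obtain ⟨k, hk⟩ := IsSemisimpleModule.lifting_property (Submodule.factor hJI)
    (Submodule.factor_surjective hJI) (LinearMap.id : (R ⧸ I) →ₗ[R] (R ⧸ I))
  have hkinj : Function.Injective k := by
    intro x y hxy
    have h2 := LinearMap.congr_fun hk x
    have h3 := LinearMap.congr_fun hk y
    simp only [LinearMap.comp_apply, LinearMap.id_apply] at h2 h3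
    rw [← h2, ← h3, hxy]
  refine ⟨i ∘ₗ k ∘ₗ e.toLinearMap ∘ₗ T.mkQ, ?_, ?_⟩
  · intro h0
    apply hT.1
    rw [eq_top_iff]
    intro v _
    have h4 := LinearMap.congr_fun h0 v
    simp only [LinearMap.comp_apply, LinearMap.zero_apply] at h4
    have h5 : k (e.toLinearMap (T.mkQ v)) = 0 := hi (by rw [h4, map_zero])
    have h6 : e.toLinearMap (T.mkQ v) = 0 := hkinj (by rw [h5, map_zero])
    have h7 : T.mkQ v = 0 := by
      have : e (T.mkQ v) = 0 := h6
      exact e.map_eq_zero_iff.mp this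
    simpa using h7
  · intro v hv
    have h8 : T.mkQ v = 0 := by simpa using hST hv
    simp [LinearMap.mem_ker, LinearMap.comp_apply] at h8 ⊢
    rw [show (Submodule.Quotient.mk v : V ⧸ T) = 0 by simpa using h8]
    simp

/-- Dual basis. -/
theorem dual_basis (X : Type u) [AddCommGroup X] [Module Λ X] [Module.Finite Λ X]
    [Module.Projective Λ X] :
    ∃ (m : ℕ) (s : Fin m → X) (f : Fin m → (X →ₗ[Λ] Λ)), ∀ x, x = ∑ i, f i x • s i := by
  obtain ⟨m, p, q, hp, hq, hpq⟩ := Module.Finite.exists_comp_eq_id_of_projective Λ X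
  refine ⟨m, fun i => p (Pi.single i 1), fun i => (LinearMap.proj i).comp q, fun x => ?_⟩
  have h1 := LinearMap.congr_fun hpq x
  simp only [LinearMap.comp_apply, LinearMap.id_apply] at h1
  conv_lhs => rw [← h1]
  have h2 : q x = ∑ i, (q x i) • (Pi.single i (1 : Λ) : Fin m → Λ) := by
    ext j
    simp [Finset.sum_apply, Pi.single_apply]
  conv_lhs => rw [h2, map_sum]
  simp

/-- the map `f(·) x : X → N`. -/
def rk (f : X →ₗ[Λ] Λ) (x : N) : X →ₗ[Λ] N := (LinearMap.toSpanSingleton Λ N x).comp f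

@[simp] theorem rk_apply (f : X →ₗ[Λ] Λ) (x : N) (p : X) : rk f x p = f p • x := rfl

theorem rk_dual {m : ℕ} {s : Fin m → X} {f : Fin m → (X →ₗ[Λ] Λ)}
    (hs : ∀ x, x = ∑ i, f i x • s i) (φ : X →ₗ[Λ] N) : φ = ∑ i, rk (f i) (φ (s i)) := by
  ext x
  conv_lhs => rw [hs x, map_sum]
  simp [LinearMap.sum_apply]

theorem tau_of_factor [Module.Finite Λ X] [Module.Projective Λ X] [Module.Finite Λ Y]
    [Module.Projective Λ Y] (d : X →ₗ[Λ] Y)
    (h : ∀ φ : X →ₗ[Λ] N, ∃ θ : Y →ₗ[Λ] N, φ = θ.comp d)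
    (F : N →ₗ[Λ] tau R E d) : F = 0 := by
  obtain ⟨m, s, f, hs⟩ := dual_basis (Λ := Λ) X
  obtain ⟨m', t, g, ht⟩ := dual_basis (Λ := Λ) Y
  -- the functional
  let χ : (X →ₗ[Λ] N) → E := fun φ => ∑ j, (F (φ (s j)) : Nu R (Λ := Λ) E X).ev (f j)
  have hχ : ∀ (f' : X →ₗ[Λ] Λ) (x : N), χ (rk f' x) = (F x : Nu R (Λ := Λ) E X).ev f' := by
    intro f' x
    have h1 : ∀ j, (F (rk f' x (s j)) : Nu R (Λ := Λ) E X).ev (f j) =
        (F x : Nu R (Λ := Λ) E X).ev (rmul (f j) (f' (s j))) := by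
      intro j
      rw [rk_apply, map_smul, Submodule.coe_smul, Nu.smul_ev]
    show ∑ j, (F (rk f' x (s j)) : Nu R (Λ := Λ) E X).ev (f j) = _
    rw [Finset.sum_congr rfl (fun j _ => h1 j), ← Nu.ev_sum]
    congr 1
    ext p
    conv_rhs => rw [hs p, map_sum]
    simp [LinearMap.sum_apply]
  have hadd : ∀ (φ : Fin m' → (X →ₗ[Λ] N)), χ (∑ i, φ i) = ∑ i, χ (φ i) := by
    intro φ
    show ∑ j, (F ((∑ i, φ i) (s j)) : Nu R (Λ := Λ) E X).ev (f j) =
      ∑ i, ∑ j, (F (φ i (s j)) : Nu R (Λ := Λ) E X).ev (f j)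
    rw [Finset.sum_comm]
    refine Finset.sum_congr rfl fun j _ => ?_
    rw [LinearMap.sum_apply, map_sum, Submodule.coe_sum, Nu.sum_ev]
  ext x
  apply Nu.ext
  intro f'
  obtain ⟨θ, hθ⟩ := h (rk f' x)
  have h2 : θ.comp d = ∑ i, rk ((g i).comp d) (θ (t i)) := by
    conv_lhs => rw [rk_dual ht θ]
    ext p
    simp [LinearMap.sum_apply]
  rw [← hχ, hθ, h2, hadd]
  refine Finset.sum_eq_zero fun i _ => ?_
  rw [hχ]
  exact (F (θ (t i))).2 (g i)

theorem factor_of_tau [IsArtinianRing R] [Module.Finite R Λ] (hE : IsInjEnvelope R E)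
    [Module.Finite Λ X] [Module.Projective Λ X] [Module.Finite Λ N] (d : X →ₗ[Λ] Y)
    (h : ∀ F : N →ₗ[Λ] tau R E d, F = 0) (φ : X →ₗ[Λ] N) : ∃ θ : Y →ₗ[Λ] N, φ = θ.comp d := by
  letI : Module R N := Module.restrictScalars R Λ N
  haveI : IsScalarTower R Λ N := IsScalarTower.restrictScalars R Λ N
  haveI : Module.Finite R N := Module.Finite.trans Λ N
  haveI : Module.Finite R (X →ₗ[Λ] N) := by
    obtain ⟨m, s, hs⟩ := Module.Finite.exists_fin (R := Λ) (M := X)
    let ψ : (X →ₗ[Λ] N) →ₗ[R] (Fin m → N) :=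
      { toFun := fun f i => f (s i)
        map_add' := fun f g => rfl
        map_smul' := fun r f => rfl }
    haveI : IsNoetherian R (X →ₗ[Λ] N) := by
      refine isNoetherian_of_injective ψ ?_
      intro f g hfg
      refine LinearMap.ext_on hs ?_
      rintro _ ⟨i, rfl⟩
      exact congrFun hfg i
    infer_instance
  let S : Submodule R (X →ₗ[Λ] N) :=
    { carrier := {φ | ∃ θ : Y →ₗ[Λ] N, φ = θ.comp d}
      add_mem' := by
        rintro _ _ ⟨θ, rfl⟩ ⟨θ', rfl⟩
        exact ⟨θ + θ', by rw [LinearMap.add_comp]⟩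
      zero_mem' := ⟨0, by simp⟩
      smul_mem' := by
        rintro r _ ⟨θ, rfl⟩
        exact ⟨r • θ, by rfl⟩ }
  by_contra hφ
  have hS : S ≠ ⊤ := by
    intro h0
    exact hφ (show φ ∈ S by rw [h0]; trivial)
  obtain ⟨-, i, hi, -⟩ := hE
  obtain ⟨χ, hχ0, hχS⟩ := exists_functional R E i hi S hS
  obtain ⟨m, s, f, hs⟩ := dual_basis (Λ := Λ) X
  let F0 : N → Nu R (Λ := Λ) E X := fun x =>
    ({ toFun := fun f => χ (rk f x)
       map_add' := fun f g => by
        have : rk (f + g) x = rk f x + rk g x := by ext p; simp [add_smul]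
        rw [this, map_add]
       map_smul' := fun r f => by
        have : rk (r • f) x = r • rk f x := by ext p; simp
        rw [this, map_smul]; rfl } : (X →ₗ[Λ] Λ) →ₗ[R] E)
  have hF0 : ∀ x (f : X →ₗ[Λ] Λ), (F0 x).ev f = χ (rk f x) := fun x f => rfl
  let F : N →ₗ[Λ] tau R E d :=
    { toFun := fun x => ⟨F0 x, fun g => by
        rw [hF0]
        exact hχS ⟨rk g x, by ext p; simp⟩⟩
      map_add' := fun x y => by
        apply Subtype.ext
        apply Nu.ext
        intro f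
        show χ (rk f (x + y)) = χ (rk f x) + χ (rk f y)
        have : rk f (x + y) = rk f x + rk f y := by ext p; simp
        rw [this, map_add]
      map_smul' := fun a x => by
        apply Subtype.ext
        apply Nu.ext
        intro f
        show χ (rk f (a • x)) = χ (rk (rmul f a) x)
        congr 1
        ext p
        simp [mul_smul] }
  have hF : F = 0 := h F
  apply hχ0
  ext ψ
  rw [rk_dual hs ψ, map_sum]
  rw [LinearMap.zero_apply]
  refine Finset.sum_eq_zero fun j _ => ?_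
  have h3 : (F (ψ (s j)) : Nu R (Λ := Λ) E X) = 0 := by rw [hF]; rfl
  have h4 : (F (ψ (s j)) : Nu R (Λ := Λ) E X).ev (f j) = 0 := by rw [h3]; rfl
  exact h4

end nu

end K9h74.TP
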