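import Mathlib
import Pool.Agent.K9h74.TP.Defs
import Pool.Agent.K9h74.TP.Tau
import Pool.Agent.K9h74.TP.Bridge

/-!
# The main theorem
-/

set_option linter.unusedSectionVars false
set_option linter.style.longLine false
set_option linter.style.haveILetI false

open CategoryTheory Category Limits Pretriangulated ZeroObject

namespace K9h74.TP

universe u w

variable {Λ : Type u} [Ring Λ]

namespace IsMinTrunc

variable {n : ℕ} {M : ModuleCat.{u} Λ} {P : CochainComplex (ModuleCat.{u} Λ) ℤ} {ε : P.X 0 ⟶ M}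

theorem ge (hP : IsMinTrunc n M P ε) : P.IsStrictlyGE (-(n : ℤ)) := by
  rw [CochainComplex.isStrictlyGE_iff]
  intro i hi
  haveI : Subsingleton (P.X i) := hP.zero_of_lt i hi
  exact ModuleCat.isZero_of_subsingleton _

theorem le (hP : IsMinTrunc n M P ε) : P.IsStrictlyLE 0 := by
  rw [CochainComplex.isStrictlyLE_iff]
  intro i hi
  haveI : Subsingleton (P.X i) := hP.zero_of_gt i hi
  exact ModuleCat.isZero_of_subsingleton _

theorem kproj (hP : IsMinTrunc n M P ε) : P.IsKProjective := by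
  haveI := hP.le
  haveI : ∀ i : ℤ, Projective (P.X i) := fun i => by
    haveI : Module.Projective Λ (P.X i) := hP.projective i
    exact (IsProjective.iff_projective (P.X i)).mp inferInstance
  exact CochainComplex.isKProjective_of_projective P 0

theorem homology (hP : IsMinTrunc n M P ε) (i : ℤ) (h1 : -(n : ℤ) < i) (h2 : i < 0) :
    IsZero (P.homology i) :=
  letI := HasDerivedCategory.standard (ModuleCat.{u} Λ)
  homology_isZero_of_exact i (hP.exact i h1 h2)

theorem homology_zero (hP : IsMinTrunc n M P ε) : Nonempty (P.homology 0 ≅ M) := by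
  letI := HasDerivedCategory.standard (ModuleCat.{u} Λ)
  haveI : Subsingleton (P.X 1) := hP.zero_of_gt 1 (by lia)
  exact homology_zero_iso (ModuleCat.isZero_of_subsingleton _) ε hP.surjective hP.exact_zero

theorem good [HasDerivedCategory.{w} (ModuleCat.{u} Λ)] (hP : IsMinTrunc n M P ε)
    (hs : IsSilting P) : Good n P := by
  haveI := hP.kproj
  have hps : Presilt (DerivedCategory.Q.obj P) := presilt_of_homotopy P hs.presilting
  refine ⟨hP.ge, hP.le, hP.kproj, hP.finite, hP.homology, hps, ?_⟩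
  refine ff_of_homotopy P hps
    (((HomotopyCategory.singleFunctors (ModuleCat.{u} Λ)).functor 0).obj (ModuleCat.of Λ Λ)) ?_
  intro S hS1 hS2 hS3
  refine hs.generates S hS1 hS2 (fun X hX => ?_) _ ?_
  · obtain ⟨m, p, q, hpq⟩ := hX
    exact hS3 X m p q hpq
  · refine ⟨(HomologicalComplex.single (ModuleCat.{u} Λ) (ComplexShape.up ℤ) 0).obj
      (ModuleCat.of Λ Λ), fun i => ?_, fun i => ?_, ⟨0, 0, fun i hi => ?_⟩, ⟨Iso.refl _⟩⟩
    · by_cases hi : i = 0
      · subst hi
        exact finite_of_iso (HomologicalComplex.singleObjXSelf (ComplexShape.up ℤ) 0 _).symm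
      · exact finite_of_isZero (HomologicalComplex.isZero_single_obj_X _ _ _ _ hi)
    · by_cases hi : i = 0
      · subst hi
        exact Module.Projective.of_equiv (HomologicalComplex.singleObjXSelf (ComplexShape.up ℤ) 0
          (ModuleCat.of Λ Λ)).symm.toLinearEquiv
      · haveI := ModuleCat.subsingleton_of_isZero
          (HomologicalComplex.isZero_single_obj_X (ComplexShape.up ℤ) 0 (ModuleCat.of Λ Λ) i hi)
        show Module.Projective Λ (((HomologicalComplex.single (ModuleCat.{u} Λ)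
          (ComplexShape.up ℤ) 0).obj (ModuleCat.of Λ Λ)).X i)
        infer_instance
    · exact ModuleCat.subsingleton_of_isZero
        (HomologicalComplex.isZero_single_obj_X (ComplexShape.up ℤ) 0 (ModuleCat.of Λ Λ) i
          (by lia))

end IsMinTrunc

theorem tauPerp_iff [HasDerivedCategory.{w} (ModuleCat.{u} Λ)] {R : Type u} [CommRing R]
    [IsArtinianRing R] [Algebra R Λ] [Module.Finite R Λ] {E : Type u} [AddCommGroup E] [Module R E]
    (hE : IsInjEnvelope R E) {n : ℕ} (hn : 1 ≤ n) {M : ModuleCat.{u} Λ}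
    {P : CochainComplex (ModuleCat.{u} Λ) ℤ} {ε : P.X 0 ⟶ M} (hP : IsMinTrunc n M P ε)
    (hG : Good n P) (N : ModuleCat.{u} Λ) : TauPerp R E n M P N ↔ W P N := by
  haveI := hP.kproj
  haveI := hP.le
  obtain ⟨e0⟩ := hP.homology_zero
  haveI : Module.Finite Λ (P.X (-(n : ℤ))) := hP.finite (-(n : ℤ))
  haveI : Module.Projective Λ (P.X (-(n : ℤ))) := hP.projective (-(n : ℤ))
  haveI : Module.Finite Λ (P.X (-(n : ℤ) + 1)) := hP.finite (-(n : ℤ) + 1)
  haveI : Module.Projective Λ (P.X (-(n : ℤ) + 1)) := hP.projective (-(n : ℤ) + 1)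
  have h0 : IsZero (P.X (-(n : ℤ) - 1)) := by
    haveI : Subsingleton (P.X (-(n : ℤ) - 1)) := hP.zero_of_lt (-(n : ℤ) - 1) (by lia)
    exact ModuleCat.isZero_of_subsingleton _
  constructor
  · rintro ⟨hN1, hN2, hN3⟩
    refine ⟨hN1, fun k hk => ?_⟩
    rcases lt_trichotomy k (n : ℤ) with h | h | h
    · lift k to ℕ using by lia
      exact (ext_iff hn P hP.homology e0 N k (by lia)).mp (hN3 k (by lia) (by lia))
    · subst h
      rw [hz_shift_iff P N n]
      intro φ _
      obtain ⟨θ, hθ⟩ := factor_of_tau R E hE (P.d (-(n : ℤ)) (-(n : ℤ) + 1)).hom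
        (fun F => congrArg ModuleCat.Hom.hom (hN2 (ModuleCat.ofHom F))) φ.hom
      exact ⟨ModuleCat.ofHom θ, ModuleCat.hom_ext hθ⟩
    · exact hG.hz_of_isLE k 0 (by lia) _
  · rintro ⟨hN1, hN2⟩
    refine ⟨hN1, fun F => ?_, fun i hi hi' => ?_⟩
    · have hF : F.hom = 0 := by
        refine tau_of_factor R E (P.d (-(n : ℤ)) (-(n : ℤ) + 1)).hom (fun φ => ?_) F.hom
        obtain ⟨θ, hθ⟩ := (hz_shift_iff P N n).mp (hN2 n (by lia)) (ModuleCat.ofHom φ)
          (h0.eq_of_src _ _)
        exact ⟨θ.hom, congrArg ModuleCat.Hom.hom hθ⟩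
      exact ModuleCat.hom_ext hF
    · exact (ext_iff hn P hP.homology e0 N i (by lia)).mpr (hN2 i (by lia))

theorem preenveloping (R : Type u) [CommRing R] [IsArtinianRing R] [Algebra R Λ]
    [Module.Finite R Λ] (E : Type u) [AddCommGroup E] [Module R E]
    (hE : IsInjEnvelope R E) (n : ℕ) (hn : 1 ≤ n) (M : ModuleCat.{u} Λ)
    (P : Cx Λ) (ε : P.mod 0 ⟶ M) (hP : IsMinTrunc n M P ε)
    (hs : IsSilting P) : IsPreenveloping (TauPerp R E n M P) := by
  letI := HasDerivedCategory.standard (ModuleCat.{u} Λ)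
  have hG : Good n P := IsMinTrunc.good hP hs
  intro C hC
  obtain ⟨Y, f, hY, hf⟩ := hG.preenvelope R C hC
  refine ⟨Y, f, (tauPerp_iff hE hn hP hG Y).mpr hY, fun X hX g => ?_⟩
  exact hf X ((tauPerp_iff hE hn hP hG X).mp hX) g

end K9h74.TP
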